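import Mathlib

/-!
# Sequential labelings of `m K_{s,t}`: raw data

Component `i < m` has the labels `A i x` (`x < s`) and `B i y` (`y < t`).
-/

namespace Pool.Agent.Helper93.Seq

/-- Raw data of a labeling of `m` copies of `K_{s,t}` with labels below `L`, whose edge labels
fill the interval of `m s t` numbers starting at a positive `c`. -/
def Raw (L m s t : ℕ) : Prop :=
  ∃ (A B : ℕ → ℕ → ℕ) (c : ℕ), 0 < c ∧
    (∀ i < m, ∀ x < s, A i x < L) ∧ (∀ i < m, ∀ y < t, B i y < L) ∧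
    (∀ i < m, ∀ x < s, ∀ j < m, ∀ y < s, A i x = A j y → i = j ∧ x = y) ∧
    (∀ i < m, ∀ x < t, ∀ j < m, ∀ y < t, B i x = B j y → i = j ∧ x = y) ∧
    (∀ i < m, ∀ x < s, ∀ j < m, ∀ y < t, A i x ≠ B j y) ∧
    (∀ i < m, ∀ x < s, ∀ y < t, c ≤ A i x + B i y ∧ A i x + B i y < c + m * s * t) ∧
    (∀ n, c ≤ n → n < c + m * s * t → ∃ i < m, ∃ x < s, ∃ y < t, A i x + B i y = n)

theorem Raw.symm {L m s t : ℕ} (h : Raw L m s t) : Raw L m t s := by
  obtain ⟨A, B, c, hc, hA, hB, iA, iB, hAB, hr, hs⟩ := h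
  have e : m * t * s = m * s * t := by ring
  refine ⟨B, A, c, hc, hB, hA, iB, iA, fun i hi x hx j hj y hy h => ?_, ?_, ?_⟩
  · exact hAB j hj y hy i hi x hx h.symm
  · intro i hi x hx y hy
    rw [e, add_comm (B i x)]
    exact hr i hi y hy x hx
  · intro n h1 h2
    rw [e] at h2
    obtain ⟨i, hi, x, hx, y, hy, h⟩ := hs n h1 h2
    exact ⟨i, hi, y, hy, x, hx, by rw [add_comm]; exact h⟩

theorem dm_unique {d q r q' r' : ℕ} (h : r < d) (h' : r' < d) (e : d * q + r = d * q' + r') :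
    q = q' ∧ r = r' := by
  have hd : 0 < d := by omega
  have h1 : (d * q + r) / d = q := by
    rw [Nat.mul_add_div hd, Nat.div_eq_of_lt h, add_zero]
  have h2 : (d * q' + r') / d = q' := by
    rw [Nat.mul_add_div hd, Nat.div_eq_of_lt h', add_zero]
  have h3 : q = q' := by rw [← h1, e, h2]
  subst h3
  exact ⟨rfl, by omega⟩

end Pool.Agent.Helper93.Seq
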