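import Pool.Agent.Helper93.Seq.Basic

/-!
# Sequential labelings of `2 K_{n,n}`, `n = a b` composite
-/

namespace Pool.Agent.Helper93.Seq

theorem composite (a b : ℕ) (ha : 2 ≤ a) (hb : 2 ≤ b) :
    Raw (2 * (a * b) * (a * b)) 2 (a * b) (a * b) := by
  obtain ⟨n, hn⟩ : ∃ n, n = a * b := ⟨_, rfl⟩
  rw [← hn]
  have han : 2 * a ≤ n := by rw [hn]; nlinarith
  have hbn : 2 * b ≤ n := by rw [hn]; nlinarith
  have hmod : ∀ x < n, x % a < a ∧ x / a < b ∧ a * (x / a) + x % a = x := fun x hx =>
    ⟨Nat.mod_lt _ (by omega), Nat.div_lt_of_lt_mul (by rw [← hn]; exact hx), Nat.div_add_mod x a⟩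
  have hmod' : ∀ x < n, x % b < b ∧ x / b < a ∧ b * (x / b) + x % b = x := fun x hx =>
    ⟨Nat.mod_lt _ (by omega), Nat.div_lt_of_lt_mul (by rw [mul_comm, ← hn]; exact hx),
      Nat.div_add_mod x b⟩
  have hai : ∀ i < b, a * i + a ≤ n := fun i hi => by rw [hn]; nlinarith
  have hbj : ∀ j < a, b * j + b ≤ n := fun j hj => by rw [hn]; nlinarith
  -- quotient and residue modulo `2 n`
  have inj1 : ∀ q r q' r', r < 2 * n → r' < 2 * n → 2 * n * q + r = 2 * n * q' + r' →
      q = q' ∧ r = r' := fun q r q' r' h h' e => dm_unique h h' e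
  have hq : ∀ q, q < n → 2 * n * q + 2 * n ≤ 2 * n * n := fun q hq => by nlinarith
  -- the four label functions, as quotient and residue
  refine ⟨fun i x => if i = 0 then (if x < a then 2 * n * 0 + (n - a + 1 + x)
      else 2 * n * 1 + (x - a + 1)) else 2 * n * (x / a + 1) + (n - a + 1 + x % a),
    fun i y => if i = 0 then 2 * n * y + (2 * n - a) else 2 * n * (b * (y / b)) + a * (y % b),
    3 * n - 2 * a + 1, by omega, ?_, ?_, ?_, ?_, ?_, ?_, ?_⟩
  · intro i hi x hx
    obtain ⟨h1, h2, h3⟩ := hmod x hx
    dsimp only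
    split_ifs with hi0 hx0
    · have := hq 0 (by omega)
      omega
    · have := hq 1 (by omega)
      omega
    · have := hq (x / a + 1) (by omega)
      omega
  · intro i hi y hy
    obtain ⟨h1, h2, h3⟩ := hmod' y hy
    dsimp only
    split_ifs with hi0
    · have := hq y (by omega)
      omega
    · have h4 := hbj (y / b) h2
      have := hq (b * (y / b)) (by omega)
      have h5 := hai (y % b) h1
      omega
  · intro i hi x hx j hj y hy
    obtain ⟨h1, h2, h3⟩ := hmod x hx
    obtain ⟨h1', h2', h3'⟩ := hmod y hy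
    have p1 := Nat.zero_le (x / a)
    have p2 := Nat.zero_le (y / a)
    dsimp only
    split_ifs with hi0 hx0 hj0 hy0 hj0 hy0 hj0 hy0
    · intro h
      have := inj1 _ _ _ _ (by omega) (by omega) h
      omega
    · intro h
      have := inj1 _ _ _ _ (by omega) (by omega) h
      omega
    · intro h
      have := inj1 _ _ _ _ (by omega) (by omega) h
      omega
    · intro h
      have := inj1 _ _ _ _ (by omega) (by omega) h
      omega
    · intro h
      have := inj1 _ _ _ _ (by omega) (by omega) h
      omega
    · intro h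
      have := inj1 _ _ _ _ (by omega) (by omega) h
      omega
    · intro h
      have := inj1 _ _ _ _ (by omega) (by omega) h
      omega
    · intro h
      have := inj1 _ _ _ _ (by omega) (by omega) h
      omega
    · intro h
      have := inj1 _ _ _ _ (by omega) (by omega) h
      have h5 : x / a = y / a := by omega
      rw [h5] at h3
      omega
  · intro i hi x hx j hj y hy
    obtain ⟨h1, h2, h3⟩ := hmod' x hx
    obtain ⟨h1', h2', h3'⟩ := hmod' y hy
    have h4 := hai _ h1
    have h4' := hai _ h1'
    dsimp only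
    split_ifs with hi0 hj0 hj0
    · intro h
      have := inj1 _ _ _ _ (by omega) (by omega) h
      omega
    · intro h
      have := inj1 _ _ _ _ (by omega) (by omega) h
      omega
    · intro h
      have := inj1 _ _ _ _ (by omega) (by omega) h
      omega
    · intro h
      obtain ⟨e1, e2⟩ := inj1 _ _ _ _ (by omega) (by omega) h
      have e3 := Nat.eq_of_mul_eq_mul_left (by omega) e1
      have e4 := Nat.eq_of_mul_eq_mul_left (by omega) e2
      rw [e3] at h3
      omega
  · intro i hi x hx j hj y hy
    obtain ⟨h1, h2, h3⟩ := hmod x hx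
    obtain ⟨h1', h2', h3'⟩ := hmod' y hy
    have h4' := hai _ h1'
    dsimp only
    split_ifs with hi0 hx0 hj0 hj0 hj0
    · intro h
      have := inj1 _ _ _ _ (by omega) (by omega) h
      omega
    · intro h
      have := inj1 _ _ _ _ (by omega) (by omega) h
      omega
    · intro h
      have := inj1 _ _ _ _ (by omega) (by omega) h
      omega
    · intro h
      obtain ⟨e1, e2⟩ := inj1 _ _ _ _ (by omega) (by omega) h
      have e3 := Nat.le_of_dvd one_pos ⟨y / b, e1⟩
      omega
    · intro h
      have := inj1 _ _ _ _ (by omega) (by omega) h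
      omega
    · intro h
      have := inj1 _ _ _ _ (by omega) (by omega) h
      omega
  · intro i hi x hx y hy
    obtain ⟨h1, h2, h3⟩ := hmod x hx
    obtain ⟨h1', h2', h3'⟩ := hmod' y hy
    have h4' := hai _ h1'
    have hy' := hq y hy
    dsimp only
    split_ifs with hi0 hx0
    · constructor <;> omega
    · constructor <;> omega
    · have h5 := hbj _ h2'
      have h6 := hq (x / a + b * (y / b)) (by omega)
      have h7 : 2 * n * (x / a + 1) + 2 * n * (b * (y / b)) =
          2 * n * (x / a + b * (y / b)) + 2 * n := by ring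
      constructor <;> omega
  · intro m h1 h2
    obtain ⟨u, rfl⟩ : ∃ u, m = 3 * n - 2 * a + 1 + u := ⟨m - (3 * n - 2 * a + 1), by omega⟩
    have hu : u < 2 * n * n := by omega
    have hn2 : 0 < 2 * n := by omega
    have e1 := Nat.div_add_mod u (2 * n)
    have e2 := Nat.mod_lt u hn2
    have e3 : u / (2 * n) < n := Nat.div_lt_of_lt_mul hu
    obtain ⟨q, hqe⟩ : ∃ q, q = u / (2 * n) := ⟨_, rfl⟩
    obtain ⟨r, hre⟩ : ∃ r, r = u % (2 * n) := ⟨_, rfl⟩
    rw [← hqe] at e1 e3
    rw [← hre] at e1 e2
    dsimp only
    by_cases c1 : r < a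
    · refine ⟨0, by omega, r, by omega, q, e3, ?_⟩
      simp only [if_true, if_pos c1]
      omega
    by_cases c2 : r < a + n
    · obtain ⟨v, rfl⟩ : ∃ v, r = a + v := ⟨r - a, by omega⟩
      obtain ⟨f1, f2, f3⟩ := hmod v (by omega)
      obtain ⟨g1, g2, g3⟩ := hmod' q e3
      -- `x = v % a + a (q % b)`, `y = v / a + b (q / b)`
      have hx : v % a + a * (q % b) < n := by
        have := hai _ g1
        omega
      have hy : v / a + b * (q / b) < n := by
        have := hbj _ g2
        omega
      have x1 : (v % a + a * (q % b)) / a = q % b := by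
        rw [Nat.add_mul_div_left _ _ (by omega : 0 < a), Nat.div_eq_of_lt f1, zero_add]
      have x2 : (v % a + a * (q % b)) % a = v % a := by
        rw [Nat.add_mul_mod_self_left, Nat.mod_mod]
      have y1 : (v / a + b * (q / b)) / b = q / b := by
        rw [Nat.add_mul_div_left _ _ (by omega : 0 < b), Nat.div_eq_of_lt f2, zero_add]
      have y2 : (v / a + b * (q / b)) % b = v / a := by
        rw [Nat.add_mul_mod_self_left, Nat.mod_eq_of_lt f2]
      refine ⟨1, by omega, v % a + a * (q % b), hx, v / a + b * (q / b), hy, ?_⟩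
      simp only [if_neg (show ¬ (1 = 0) by omega), x1, x2, y1, y2]
      have h7 : 2 * n * (q % b + 1) + 2 * n * (b * (q / b)) =
          2 * n * (b * (q / b) + q % b) + 2 * n := by ring
      rw [g3] at h7
      omega
    · refine ⟨0, by omega, r - n, by omega, q, e3, ?_⟩
      simp only [if_true, if_neg (show ¬ (r - n < a) by omega)]
      omega

end Pool.Agent.Helper93.Seq
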