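import Pool.Agent.Helper93.Seq.General

/-!
# Sequential labelings of `m K_{s,s}`, `s ≥ 4`, `m ≥ 3`
-/

namespace Pool.Agent.Helper93.Seq

theorem equal (s n : ℕ) (hs : 4 ≤ s) : Raw ((n + 3) * s * s) (n + 3) s s := by
  obtain ⟨w, hw⟩ : ∃ w, w + s + 1 = s * s := ⟨s * s - s - 1, by
    have : 4 * s ≤ s * s := Nat.mul_le_mul_right _ hs
    omega⟩
  have h4 : 4 * s ≤ s * s := Nat.mul_le_mul_right _ hs
  have hN : (n + 3) * s * s = w * (n + 1) + (s + 1) * (n + 1) + 2 * (w + s + 1) := by
    rw [mul_assoc, ← hw]; ring
  have hmono : ∀ k ≤ n, (s + 1) * k ≤ (s + 1) * n := fun k hk => Nat.mul_le_mul_left _ hk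
  have hmonow : ∀ k ≤ n, w * k ≤ w * n := fun k hk => Nat.mul_le_mul_left _ hk
  have hM : (s + 1) * (n + 1) = (s + 1) * n + s + 1 := by ring
  have hW : w * (n + 1) = w * n + w := by ring
  have hsy : ∀ y < s, s * y + s ≤ s * s := fun y hy => by nlinarith
  have hsx : ∀ x, 0 < x → s ≤ s * x := fun x hx => Nat.le_mul_of_pos_right s hx
  refine ⟨fun i x => if i = 0 then x else if i = 1 then (if x = 0 then (s + 1) * (n + 1)
      else (s + 1) * (n + 1) + s * s + s * x) else 2 * s + 3 + (s + 1) * (i - 2) + x,
    fun i y => if i = 0 then (s + 1) * (n + 1) + 2 * s + 2 + s * y else if i = 1 then s + 2 + y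
      else (s + 1) * (n + 1) + s * s + w + w * (i - 2) + s * y,
    (s + 1) * (n + 1) + s + 2, by omega, ?_, ?_, ?_, ?_, ?_, ?_, ?_⟩
  · intro i hi x hx
    dsimp only
    rw [hN]
    have h1 := hsy x hx
    split_ifs with hi0 hi1 hx0
    · omega
    · omega
    · omega
    · have h2 := hmono (i - 2) (by omega)
      omega
  · intro i hi y hy
    dsimp only
    rw [hN]
    have h1 := hsy y hy
    split_ifs with hi0 hi1
    · omega
    · omega
    · have h2 := hmonow (i - 2) (by omega)
      omega
  · -- injectivity of `A`
    have k1 : ∀ x < s, ∀ k ≤ n, ∀ y < s, (s + 1) * (n + 1) ≠ 2 * s + 3 + (s + 1) * k + y := by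
      intro x hx k hk y hy h
      have := dm_unique (d := s + 1) (q := n + 1) (r := 0) (q' := k + 2) (r' := 1 + y) (by omega)
          (by omega) (by
            have : (s + 1) * (k + 2) = (s + 1) * k + 2 * s + 2 := by ring
            omega)
      omega
    intro i hi x hx j hj y hy
    dsimp only
    split_ifs with hi0 hj0 hj1 hy0 hi1 hx0 hj0 hj1 hy0 hj0 hj1 hy0 hj0 hj1 hy0
    · omega
    · omega
    · omega
    · omega
    · omega
    · omega
    · intro h
      have := hsx y (by omega)
      omega
    · intro h
      exact absurd h (k1 x hx (j - 2) (by omega) y hy)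
    · omega
    · intro h
      have := hsx x (by omega)
      omega
    · intro h
      have h1 : s * x = s * y := by omega
      exact ⟨by omega, Nat.eq_of_mul_eq_mul_left (by omega) h1⟩
    · intro h
      have := hmono (j - 2) (by omega)
      have := hsx x (by omega)
      omega
    · omega
    · intro h
      exact absurd h.symm (k1 y hy (i - 2) (by omega) x hx)
    · intro h
      have := hmono (i - 2) (by omega)
      have := hsx y (by omega)
      omega
    · intro h
      have := dm_unique (d := s + 1) (q := i - 2) (r := x) (q' := j - 2) (r' := y) (by omega)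
          (by omega) (by omega)
      omega
  · -- injectivity of `B`
    intro i hi x hx j hj y hy
    dsimp only
    have h1 := hsy x hx
    have h2 := hsy y hy
    split_ifs with hi0 hj0 hj1 hi1 hj0 hj1 hj0 hj1
    · intro h
      have h1 : s * x = s * y := by omega
      exact ⟨by omega, Nat.eq_of_mul_eq_mul_left (by omega) h1⟩
    · omega
    · intro h
      omega
    · omega
    · omega
    · intro h
      omega
    · intro h
      omega
    · intro h
      omega
    · intro h
      have := chain_inj (s := s) (t := s) (w := w) (by omega) hw (by omega) hx hy (k := i - 2)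
        (k' := j - 2) (by omega)
      omega
  · -- `A` and `B`
    have k1 : ∀ x < s, 0 < x → ∀ y < s, s * s + s * x ≠ 2 * s + 2 + s * y := by
      intro x hx hx0 y hy h
      have h3 : s * (s + x) = s * (y + 2) + 2 := by nlinarith
      have h4 : s ∣ 2 := (Nat.dvd_add_right ⟨y + 2, rfl⟩).mp ⟨s + x, h3.symm⟩
      have := Nat.le_of_dvd (by norm_num) h4
      omega
    have k2 : ∀ x < s, ∀ k, ∀ y < s, s * x ≠ w + w * k + s * y := by
      intro x hx k y hy h
      have h5 := hsy x hx
      rcases Nat.eq_zero_or_pos k with h3 | h3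
      · subst h3
        have h4 : s * (x + 1) + 1 = s * (s + y) := by nlinarith
        have h6 : s ∣ 1 := (Nat.dvd_add_right ⟨x + 1, rfl⟩).mp ⟨s + y, h4⟩
        have := Nat.le_of_dvd one_pos h6
        omega
      · have h4 : w ≤ w * k := Nat.le_mul_of_pos_right w h3
        omega
    intro i hi x hx j hj y hy
    dsimp only
    have h1 := hsy x hx
    have h2 := hsy y hy
    split_ifs with hi0 hj0 hj1 hi1 hx0 hj0 hj1 hj0 hj1 hj0 hj1
    · omega
    · omega
    · omega
    · omega
    · intro h
      rcases Nat.eq_zero_or_pos n with h3 | h3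
      · subst h3
        omega
      · have : s + 1 ≤ (s + 1) * n := Nat.le_mul_of_pos_right _ h3
        omega
    · omega
    · intro h
      exact k1 x hx (by omega) y hy (by omega)
    · omega
    · intro h
      exact k2 x hx (j - 2) y hy (by omega)
    · intro h
      have := hmono (i - 2) (by omega)
      omega
    · omega
    · intro h
      have := hmono (i - 2) (by omega)
      omega
  · -- range of the sums
    intro i hi x hx y hy
    dsimp only
    rw [hN]
    have h1 := hsy x hx
    have h2 := hsy y hy
    split_ifs with hi0 hi1 hx0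
    · constructor <;> omega
    · constructor <;> omega
    · constructor <;> omega
    · have h3 := hmono (i - 2) (by omega)
      have h4 := hmonow (i - 2) (by omega)
      constructor <;> omega
  · intro m h1 h2
    dsimp only
    obtain ⟨u, rfl⟩ : ∃ u, m = (s + 1) * (n + 1) + s + 2 + u :=
      ⟨m - ((s + 1) * (n + 1) + s + 2), by omega⟩
    have h2' : u < (n + 3) * s * s := by omega
    have hss : 0 < s * s := by omega
    by_cases c1 : u < s
    · refine ⟨1, by omega, 0, by omega, u, c1, ?_⟩
      simp only [if_true, if_neg (show ¬ (1 = 0) by omega)]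
      omega
    by_cases c2 : u < s + s * s
    · obtain ⟨v, rfl⟩ : ∃ v, u = s + v := ⟨u - s, by omega⟩
      refine ⟨0, by omega, v % s, Nat.mod_lt _ (by omega), v / s,
        Nat.div_lt_of_lt_mul (by omega), ?_⟩
      simp only [if_true]
      have := Nat.div_add_mod v s
      omega
    by_cases c3 : u < 2 * (s * s)
    · obtain ⟨v, rfl⟩ : ∃ v, u = s * s + v := ⟨u - s * s, by omega⟩
      have hv : 1 ≤ v / s := (Nat.one_le_div_iff (by omega)).mpr (by omega)
      refine ⟨1, by omega, v / s, Nat.div_lt_of_lt_mul (by omega), v % s,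
        Nat.mod_lt _ (by omega), ?_⟩
      simp only [if_true, if_neg (show ¬ (1 = 0) by omega), if_neg (show ¬ (v / s = 0) by omega)]
      have := Nat.div_add_mod v s
      omega
    · obtain ⟨v, rfl⟩ : ∃ v, u = 2 * (s * s) + v := ⟨u - 2 * (s * s), by omega⟩
      have hv : v < s * s * (n + 1) := by
        have : (n + 3) * s * s = 2 * (s * s) + s * s * (n + 1) := by ring
        omega
      refine ⟨v / (s * s) + 2, ?_, v % (s * s) % s, Nat.mod_lt _ (by omega), v % (s * s) / s,
        Nat.div_lt_of_lt_mul (Nat.mod_lt _ hss), ?_⟩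
      · have := Nat.div_lt_of_lt_mul hv
        omega
      · have n0 : ¬ (v / (s * s) + 2 = 0) := Nat.succ_ne_zero _
        have n1 : ¬ (v / (s * s) + 2 = 1) := by
          intro h
          have := Nat.succ.inj h
          exact Nat.succ_ne_zero _ this
        rw [if_neg n0, if_neg n1, if_neg n0, if_neg n1, Nat.add_sub_cancel]
        have e1 := Nat.div_add_mod v (s * s)
        have e2 := Nat.div_add_mod (v % (s * s)) s
        have e3 : s * s * (v / (s * s)) = w * (v / (s * s)) + (s + 1) * (v / (s * s)) := by
          rw [← hw]; ring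
        omega

end Pool.Agent.Helper93.Seq
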