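import Pool.Agent.Helper93.Seq.Basic

/-!
# Sequential labelings of `m K_{s,t}`, `s < t`, `m ≥ 2`
-/

namespace Pool.Agent.Helper93.Seq

/-- Injectivity of `(k, y) ↦ w k + s y` when `w + s + 1 = s t` and `w ≥ t + 1`, `y < t`. -/
theorem chain_inj {s t w k y k' y' : ℕ} (hs : 2 ≤ s) (hw : w + s + 1 = s * t) (hwt : t < w)
    (hy : y < t) (hy' : y' < t) (h : w * k + s * y = w * k' + s * y') : k = k' ∧ y = y' := by
  have main : ∀ k y k' y' : ℕ, y < t → y' < t → w * k + s * y = w * k' + s * y' → ¬ k < k' := by
    intro k y k' y' hy hy' h hk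
    -- s (y - y') = w (k' - k)
    obtain ⟨d, rfl⟩ : ∃ d, k' = k + d := ⟨k' - k, by omega⟩
    have hd : 1 ≤ d := by omega
    have h1 : s * y = w * d + s * y' := by
      have : w * (k + d) = w * k + w * d := by ring
      omega
    -- (w + s + 1) d = s t d
    have h2 : s * (t * d + y') = s * y + (s + 1) * d := by
      have : (w + s + 1) * d = s * t * d := by rw [hw]
      nlinarith
    have h3 : s ∣ (s + 1) * d := (Nat.dvd_add_right ⟨y, rfl⟩).mp ⟨_, h2.symm⟩
    have h4 : s ∣ d := by
      have : s ∣ s * d + d := by
        have e : (s + 1) * d = s * d + d := by ring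
        rw [← e]; exact h3
      exact (Nat.dvd_add_right ⟨d, rfl⟩).mp this
    obtain ⟨e, rfl⟩ := h4
    have he : 1 ≤ e := by
      rcases Nat.eq_zero_or_pos e with h | h
      · subst h; simp at hd
      · exact h
    have h5 : s * y = s * (w * e + y') := by rw [h1]; ring
    have h6 : y = w * e + y' := Nat.eq_of_mul_eq_mul_left (by omega) h5
    have h7 : w ≤ w * e := Nat.le_mul_of_pos_right w he
    omega
  have hk : k = k' := by
    have h1 := main k y k' y' hy hy' h
    have h2 := main k' y' k y hy' hy h.symm
    omega
  subst hk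
  refine ⟨rfl, ?_⟩
  have : s * y = s * y' := by omega
  exact Nat.eq_of_mul_eq_mul_left (by omega) this

theorem general (s t n : ℕ) (hs : 2 ≤ s) (hst : s < t) (h23 : ¬ (s = 2 ∧ t = 3)) :
    Raw ((n + 2) * s * t) (n + 2) s t := by
  have h0 : s + t + 2 ≤ s * t := by
    rcases Nat.lt_or_ge t 4 with h | h
    · have : t = 3 := by omega
      have : s = 2 := by omega
      omega
    · nlinarith
  obtain ⟨w, hw⟩ : ∃ w, w + s + 1 = s * t := ⟨s * t - s - 1, by omega⟩
  have hwt : t < w := by omega
  have hN : (n + 2) * s * t = w * n + s * n + n + 2 * (w + s + 1) := by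
    rw [mul_assoc, ← hw]; ring
  refine ⟨fun i x => if i = 0 then t + (s + 1) * n + t * x else t + 1 + (s + 1) * (i - 1) + x,
    fun i y => if i = 0 then y else (s + 1) * n + w + s + w * (i - 1) + s * y,
    t + (s + 1) * n, by omega, ?_, ?_, ?_, ?_, ?_, ?_, ?_⟩
  · intro i hi x hx
    dsimp only
    rw [hN]
    split_ifs with hi0
    · have : t * x + t ≤ s * t := by nlinarith
      nlinarith
    · have h1 : (s + 1) * (i - 1) ≤ (s + 1) * n := Nat.mul_le_mul_left _ (by omega)
      nlinarith
  · intro i hi y hy
    dsimp only
    rw [hN]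
    split_ifs with hi0
    · nlinarith
    · have h1 : w * (i - 1) ≤ w * n := Nat.mul_le_mul_left _ (by omega)
      have h2 : s * y + s ≤ s * t := by nlinarith
      nlinarith
  · intro i hi x hx j hj y hy
    dsimp only
    have key : ∀ x y k : ℕ, y < s → k ≤ n →
        t + (s + 1) * n + t * x ≠ t + 1 + (s + 1) * k + y := by
      intro x y k hy hk h
      rcases Nat.eq_zero_or_pos x with h0 | h0
      · subst h0
        have := dm_unique (d := s + 1) (q := n) (r := 0) (q' := k) (r' := 1 + y) (by omega)
          (by omega) (by omega)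
        omega
      · have h1 : (s + 1) * k ≤ (s + 1) * n := Nat.mul_le_mul_left _ hk
        have h2 : t ≤ t * x := Nat.le_mul_of_pos_right t h0
        omega
    split_ifs with hi0 hj0 hj0
    · intro h
      have : t * x = t * y := by omega
      exact ⟨by omega, Nat.eq_of_mul_eq_mul_left (by omega) this⟩
    · intro h
      exact absurd h (key x y (j - 1) hy (by omega))
    · intro h
      exact absurd h.symm (key y x (i - 1) hx (by omega))
    · intro h
      have := dm_unique (d := s + 1) (q := i - 1) (r := x) (q' := j - 1) (r' := y) (by omega)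
          (by omega) (by omega)
      omega
  · intro i hi x hx j hj y hy
    dsimp only
    split_ifs with hi0 hj0 hj0
    · omega
    · intro h
      have : w ≤ (s + 1) * n + w := Nat.le_add_left _ _
      omega
    · intro h
      omega
    · intro h
      have := chain_inj hs hw hwt hx hy (k := i - 1) (k' := j - 1) (by omega)
      omega
  · intro i hi x hx j hj y hy
    dsimp only
    split_ifs with hi0 hj0 hj0
    · omega
    · intro h
      -- t (x + 1) = w + s + w k + s y
      have h1 : t * x + t = w + s + w * (j - 1) + s * y := by omega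
      have h2 : t * x + t ≤ s * t := by nlinarith
      rcases Nat.eq_zero_or_pos (j - 1) with h3 | h3
      · rw [h3] at h1
        rcases Nat.eq_zero_or_pos y with h4 | h4
        · subst h4
          have h5 : t * (x + 1) + 1 = t * s := by nlinarith
          have h6 : t ∣ 1 := (Nat.dvd_add_right ⟨x + 1, rfl⟩).mp ⟨s, h5⟩
          have := Nat.le_of_dvd one_pos h6
          omega
        · have h5 : s ≤ s * y := Nat.le_mul_of_pos_right s h4
          omega
      · have h5 : w ≤ w * (j - 1) := Nat.le_mul_of_pos_right w h3
        omega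
    · intro h
      omega
    · intro h
      have h1 : (s + 1) * (i - 1) ≤ (s + 1) * n := Nat.mul_le_mul_left _ (by omega)
      omega
  · intro i hi x hx y hy
    dsimp only
    rw [hN]
    have e1 : (s + 1) * n = s * n + n := by ring
    split_ifs with hi0
    · have : t * x + t ≤ s * t := by nlinarith
      constructor
      · omega
      · have : w + s + 1 ≤ w * n + s * n + n + 2 * (w + s + 1) := by nlinarith
        omega
    · have h1 : w * (i - 1) ≤ w * n := Nat.mul_le_mul_left _ (by omega)
      have h2 : (s + 1) * (i - 1) ≤ (s + 1) * n := Nat.mul_le_mul_left _ (by omega)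
      have h3 : s * y + s ≤ s * t := by nlinarith
      constructor
      · omega
      · omega
  · intro m h1 h2
    dsimp only
    obtain ⟨u, rfl⟩ : ∃ u, m = t + (s + 1) * n + u := ⟨m - (t + (s + 1) * n), by omega⟩
    have h2' : u < (n + 2) * s * t := by omega
    by_cases c1 : u < s * t
    · refine ⟨0, by omega, u / t, Nat.div_lt_of_lt_mul (by rw [mul_comm]; exact c1), u % t,
        Nat.mod_lt _ (by omega), ?_⟩
      simp only [if_true]
      have := Nat.div_add_mod u t
      omega
    · obtain ⟨v, rfl⟩ : ∃ v, u = s * t + v := ⟨u - s * t, by omega⟩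
      have hv : v < s * t * (n + 1) := by
        have : (n + 2) * s * t = s * t + s * t * (n + 1) := by ring
        omega
      have hst0 : 0 < s * t := by nlinarith
      refine ⟨v / (s * t) + 1, ?_, v % (s * t) % s, Nat.mod_lt _ (by omega), v % (s * t) / s,
        Nat.div_lt_of_lt_mul (Nat.mod_lt _ hst0), ?_⟩
      · have := Nat.div_lt_of_lt_mul hv
        omega
      · rw [if_neg (Nat.succ_ne_zero _), if_neg (Nat.succ_ne_zero _), Nat.add_sub_cancel]
        have e1 := Nat.div_add_mod v (s * t)
        have e2 := Nat.div_add_mod (v % (s * t)) s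
        have e3 : s * t * (v / (s * t)) = w * (v / (s * t)) + (s + 1) * (v / (s * t)) := by
          rw [← hw]; ring
        omega

end Pool.Agent.Helper93.Seq
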