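import Pool.Agent.Helper93.Seq.NoSmall

/-!
# `K_{s,t}` with `s, t ≥ 1` and `m K_{2,2}`: no labeling with labels below the number of edges
-/

namespace Pool.Agent.Helper93.Seq

/-- One component: a complete bipartite graph has no labeling with labels below its number of
edges (this includes stars). -/
theorem no_one (s t : ℕ) (hs : 0 < s) (ht : 0 < t) : ¬ Raw (1 * s * t) 1 s t := by
  classical
  rintro ⟨A, B, c, hc, lA, lB, iA, iB, hAB, hr, hsur⟩
  have inj := sums_inj hsur
  have hN : 0 < 1 * s * t := by positivity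
  obtain ⟨N, hNe⟩ : ∃ N, N = 1 * s * t := ⟨_, rfl⟩
  rw [← hNe] at lA lB hr hN
  -- the differences modulo `N` are pairwise distinct
  haveI : NeZero N := ⟨by omega⟩
  have key : Set.InjOn (fun p : ℕ × ℕ => ((A 0 p.1 : ℕ) : ZMod N) - ((B 0 p.2 : ℕ) : ZMod N))
      (Finset.range s ×ˢ Finset.range t : Finset (ℕ × ℕ)) := by
    rintro ⟨x, y⟩ hp ⟨x', y'⟩ hp' e
    simp only [Finset.coe_product, Set.mem_prod, Finset.coe_range, Set.mem_Iio] at hp hp'
    dsimp only at e
    have e2 : ((A 0 x + B 0 y' : ℕ) : ZMod N) = ((A 0 x' + B 0 y : ℕ) : ZMod N) := by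
      push_cast
      linear_combination e
    rw [ZMod.natCast_eq_natCast_iff] at e2
    have h1 := hr 0 one_pos x hp.1 y' hp'.2
    have h2 := hr 0 one_pos x' hp'.1 y hp.2
    have e3 : A 0 x + B 0 y' = A 0 x' + B 0 y := by
      have h3 : A 0 x + B 0 y' - c ≡ A 0 x' + B 0 y - c [MOD N] := by
        have h4 : (A 0 x + B 0 y' - c) + c ≡ (A 0 x' + B 0 y - c) + c [MOD N] := by
          rw [Nat.sub_add_cancel h1.1, Nat.sub_add_cancel h2.1]
          exact e2
        exact Nat.ModEq.add_right_cancel' c h4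
      have h5 : A 0 x + B 0 y' - c < N := by omega
      have h6 : A 0 x' + B 0 y - c < N := by omega
      have := Nat.ModEq.eq_of_lt_of_lt h3 h5 h6
      omega
    obtain ⟨-, h3, h4⟩ := inj 0 one_pos x hp.1 y' hp'.2 0 one_pos x' hp'.1 y hp.2 e3
    exact Prod.ext h3 h4.symm
  have hcard := Finset.card_image_of_injOn key
  rw [Finset.card_product, Finset.card_range, Finset.card_range] at hcard
  have huniv : (Finset.range s ×ˢ Finset.range t).image
      (fun p : ℕ × ℕ => ((A 0 p.1 : ℕ) : ZMod N) - ((B 0 p.2 : ℕ) : ZMod N)) = Finset.univ := by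
    apply Finset.eq_univ_of_card
    rw [hcard, ZMod.card]
    rw [hNe]; ring
  have h0 : (0 : ZMod N) ∈ (Finset.range s ×ˢ Finset.range t).image
      (fun p : ℕ × ℕ => ((A 0 p.1 : ℕ) : ZMod N) - ((B 0 p.2 : ℕ) : ZMod N)) := by
    rw [huniv]; exact Finset.mem_univ _
  obtain ⟨⟨x, y⟩, hp, e⟩ := Finset.mem_image.mp h0
  rw [Finset.mem_product, Finset.mem_range, Finset.mem_range] at hp
  dsimp only at e
  rw [sub_eq_zero, ZMod.natCast_eq_natCast_iff] at e
  have := Nat.ModEq.eq_of_lt_of_lt e (lA 0 one_pos x hp.1) (lB 0 one_pos y hp.2)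
  exact hAB 0 one_pos x hp.1 0 one_pos y hp.2 this

/-- Counting: if `s = 1` or `t = 1` there are more vertices than labels. -/
theorem no_star (m t : ℕ) (hm : 0 < m) : ¬ Raw (m * 1 * t) m 1 t := by
  classical
  rintro ⟨A, B, c, hc, lA, lB, iA, iB, hAB, hr, hsur⟩
  have h1 : ((Finset.range m).image (fun i => A i 0) ∪
      (Finset.range m ×ˢ Finset.range t).image fun p => B p.1 p.2) ⊆
      Finset.range (m * 1 * t) := by
    intro n hn
    rw [Finset.mem_union, Finset.mem_image, Finset.mem_image] at hn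
    rw [Finset.mem_range]
    rcases hn with ⟨i, hi, rfl⟩ | ⟨p, hp, rfl⟩
    · exact lA i (Finset.mem_range.mp hi) 0 one_pos
    · rw [Finset.mem_product, Finset.mem_range, Finset.mem_range] at hp
      exact lB p.1 hp.1 p.2 hp.2
  have h2 := Finset.card_le_card h1
  rw [Finset.card_union_of_disjoint, Finset.card_image_of_injOn, Finset.card_image_of_injOn,
    Finset.card_product] at h2
  · simp only [Finset.card_range] at h2
    rw [mul_one] at h2
    omega
  · rintro ⟨i, x⟩ hp ⟨j, y⟩ hq e
    simp only [Finset.coe_product, Set.mem_prod, Finset.coe_range, Set.mem_Iio] at hp hq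
    have := iB i hp.1 x hp.2 j hq.1 y hq.2 e
    exact Prod.ext this.1 this.2
  · intro i hi j hj e
    simp only [Finset.coe_range, Set.mem_Iio] at hi hj
    exact (iA i hi 0 one_pos j hj 0 one_pos e).1
  · rw [Finset.disjoint_left]
    intro n hn hn'
    rw [Finset.mem_image] at hn hn'
    obtain ⟨i, hi, rfl⟩ := hn
    obtain ⟨p, hp, e⟩ := hn'
    rw [Finset.mem_product, Finset.mem_range, Finset.mem_range] at hp
    exact hAB i (Finset.mem_range.mp hi) 0 one_pos p.1 hp.1 p.2 hp.2 e.symm

/-- `m K_{2,2}` is never sequential. -/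
theorem no_two_two (m : ℕ) (hm : 0 < m) : ¬ Raw (m * 2 * 2) m 2 2 := by
  classical
  rintro ⟨A, B, c, hc, lA, lB, iA, iB, hAB, hr, hsur⟩
  have inj := sums_inj hsur
  -- all labels are used
  have hinj : Set.InjOn (fun p : ℕ × ℕ => if p.2 < 2 then A p.1 p.2 else B p.1 (p.2 - 2))
      (Finset.range m ×ˢ Finset.range 4 : Finset (ℕ × ℕ)) := by
    rintro ⟨i, x⟩ hp ⟨j, y⟩ hq e
    simp only [Finset.coe_product, Set.mem_prod, Finset.coe_range, Set.mem_Iio] at hp hq
    dsimp only at e
    split_ifs at e with h1 h2 h2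
    · have := iA i hp.1 x h1 j hq.1 y h2 e
      exact Prod.ext this.1 this.2
    · exact absurd e (hAB i hp.1 x h1 j hq.1 (y - 2) (by omega))
    · exact absurd e.symm (hAB j hq.1 y h2 i hp.1 (x - 2) (by omega))
    · have := iB i hp.1 (x - 2) (by omega) j hq.1 (y - 2) (by omega) e
      exact Prod.ext this.1 (by dsimp only; omega)
  have himg : (Finset.range m ×ˢ Finset.range 4).image
      (fun p : ℕ × ℕ => if p.2 < 2 then A p.1 p.2 else B p.1 (p.2 - 2)) =
      Finset.range (m * 2 * 2) := by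
    apply Finset.eq_of_subset_of_card_le
    · intro n hn
      obtain ⟨⟨i, x⟩, hp, rfl⟩ := Finset.mem_image.mp hn
      rw [Finset.mem_product, Finset.mem_range, Finset.mem_range] at hp
      rw [Finset.mem_range]
      dsimp only at hp ⊢
      split_ifs with h
      · exact lA i hp.1 x h
      · exact lB i hp.1 (x - 2) (by omega)
    · rw [Finset.card_image_of_injOn hinj, Finset.card_product]
      simp only [Finset.card_range]
      omega
  have s1 : ∑ n ∈ Finset.range (m * 2 * 2), n =
      ∑ i ∈ Finset.range m, (A i 0 + A i 1 + B i 0 + B i 1) := by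
    rw [← himg, Finset.sum_image hinj, Finset.sum_product]
    refine Finset.sum_congr rfl fun i _ => ?_
    simp [Finset.sum_range_succ]
  -- all sums
  have hinj2 : Set.InjOn (fun p : ℕ × ℕ × ℕ => A p.1 p.2.1 + B p.1 p.2.2)
      (Finset.range m ×ˢ Finset.range 2 ×ˢ Finset.range 2 : Finset (ℕ × ℕ × ℕ)) := by
    rintro ⟨i, x, y⟩ hp ⟨j, x', y'⟩ hq e
    simp only [Finset.coe_product, Set.mem_prod, Finset.coe_range, Set.mem_Iio] at hp hq
    have := inj i hp.1 x hp.2.1 y hp.2.2 j hq.1 x' hq.2.1 y' hq.2.2 e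
    exact Prod.ext this.1 (Prod.ext this.2.1 this.2.2)
  have himg2 : (Finset.range m ×ˢ Finset.range 2 ×ˢ Finset.range 2).image
      (fun p : ℕ × ℕ × ℕ => A p.1 p.2.1 + B p.1 p.2.2) =
      (Finset.range (m * 2 * 2)).image fun k => c + k := by
    apply Finset.Subset.antisymm
    · intro n hn
      obtain ⟨⟨i, x, y⟩, hp, rfl⟩ := Finset.mem_image.mp hn
      simp only [Finset.mem_product, Finset.mem_range] at hp
      have := hr i hp.1 x hp.2.1 y hp.2.2
      rw [Finset.mem_image]
      exact ⟨A i x + B i y - c, Finset.mem_range.mpr (by omega), by dsimp only; omega⟩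
    · intro n hn
      obtain ⟨k, hk, rfl⟩ := Finset.mem_image.mp hn
      rw [Finset.mem_range] at hk
      obtain ⟨i, hi, x, hx, y, hy, e⟩ := hsur (c + k) (by omega) (by omega)
      rw [Finset.mem_image]
      exact ⟨(i, x, y), by simp [hi, hx, hy], e⟩
  have s2 : ∑ k ∈ Finset.range (m * 2 * 2), (c + k) =
      2 * ∑ i ∈ Finset.range m, (A i 0 + A i 1 + B i 0 + B i 1) := by
    have e1 : ∑ n ∈ (Finset.range (m * 2 * 2)).image (fun k => c + k), n =
        ∑ k ∈ Finset.range (m * 2 * 2), (c + k) :=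
      Finset.sum_image (fun x _ y _ h => by simpa using h)
    rw [← e1, ← himg2, Finset.sum_image hinj2, Finset.sum_product, Finset.mul_sum]
    refine Finset.sum_congr rfl fun i _ => ?_
    rw [Finset.sum_product]
    simp only [Finset.sum_range_succ, Finset.sum_range_zero]
    omega
  rw [← s1, Finset.sum_add_distrib, Finset.sum_const, Finset.card_range, smul_eq_mul] at s2
  have s3 : m * 2 * 2 * c = ∑ n ∈ Finset.range (m * 2 * 2), n := by omega
  have s4 := Finset.sum_range_id_mul_two (m * 2 * 2)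
  rw [← s3] at s4
  have hpos : 0 < m * 2 * 2 := by omega
  have s5 : m * 2 * 2 * (c * 2) = m * 2 * 2 * (m * 2 * 2 - 1) := by
    rw [← s4]; ring
  have s6 := Nat.eq_of_mul_eq_mul_left hpos s5
  omega

end Pool.Agent.Helper93.Seq
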