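import Pool.Agent.Helper93.Seq.Search

/-!
# `2 K_{2,3}` and `2 K_{3,3}` are not sequential
-/

namespace Pool.Agent.Helper93.Seq

/-- The edge labels of a labeling are pairwise distinct. -/
theorem sums_inj {m s t c : ℕ} {A B : ℕ → ℕ → ℕ}
    (hs : ∀ n, c ≤ n → n < c + m * s * t → ∃ i < m, ∃ x < s, ∃ y < t, A i x + B i y = n) :
    ∀ i < m, ∀ x < s, ∀ y < t, ∀ j < m, ∀ x' < s, ∀ y' < t, A i x + B i y = A j x' + B j y' →
      i = j ∧ x = x' ∧ y = y' := by
  classical
  have hsub : Finset.Ico c (c + m * s * t) ⊆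
      ((Finset.range m ×ˢ Finset.range s ×ˢ Finset.range t).image
        fun p => A p.1 p.2.1 + B p.1 p.2.2) := by
    intro n hn
    rw [Finset.mem_Ico] at hn
    obtain ⟨i, hi, x, hx, y, hy, e⟩ := hs n hn.1 hn.2
    rw [Finset.mem_image]
    exact ⟨(i, x, y), by simp [hi, hx, hy], e⟩
  have hcard : (Finset.range m ×ˢ Finset.range s ×ˢ Finset.range t).card = m * s * t := by
    simp [Finset.card_product, mul_assoc]
  have h1 := Finset.card_le_card hsub
  rw [Nat.card_Ico, Nat.add_sub_cancel_left] at h1
  have h2 := Finset.card_image_le (s := Finset.range m ×ˢ Finset.range s ×ˢ Finset.range t)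
    (f := fun p => A p.1 p.2.1 + B p.1 p.2.2)
  have h3 := Finset.card_image_iff.mp (le_antisymm h2 (hcard ▸ h1))
  intro i hi x hx y hy j hj x' hx' y' hy' e
  have := h3 (x₁ := (i, x, y)) (x₂ := (j, x', y')) (by simp [hi, hx, hy])
    (by simp [hj, hx', hy']) e
  simpa using this

/-- Translate of a list. -/
def sh (u : ℕ) (A : List ℕ) : List ℕ := A.map fun a => u + a

/-- All entries are below `N`. -/
def fit (N : ℕ) (A : List ℕ) : Bool := A.all fun a => Nat.blt a N

/-- Disjointness. -/
def disj (A B : List ℕ) : Bool := A.all fun a => !(B.any fun b => Nat.beq a b)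

theorem fit_iff {N : ℕ} {A : List ℕ} : fit N A = true ↔ ∀ a ∈ A, a < N := by
  simp [fit, Nat.blt_eq]

theorem disj_iff {A B : List ℕ} : disj A B = true ↔ ∀ a ∈ A, ∀ b ∈ B, a ≠ b := by
  simp [disj]

theorem mem_sh {u : ℕ} {A : List ℕ} {x : ℕ} : x ∈ sh u A ↔ ∃ a ∈ A, u + a = x := by
  simp [sh]

/-- Can the tiling be lifted to a labeling? -/
def labelOK (N : ℕ) (A B C D : List ℕ) (d : ℕ) : Bool :=
  (List.range N).any fun u => fit N (sh u A) &&
    (List.range N).any fun v => Nat.blt 0 (u + v) && (fit N (sh v B) && (disj (sh u A) (sh v B) &&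
      (List.range N).any fun u' => Nat.ble u' (u + v + d) && (fit N (sh u' C) &&
        (disj (sh u' C) (sh u A) && (disj (sh u' C) (sh v B) &&
          (fit N (sh (u + v + d - u') D) && (disj (sh (u + v + d - u') D) (sh u A) &&
            (disj (sh (u + v + d - u') D) (sh v B) &&
              disj (sh (u + v + d - u') D) (sh u' C)))))))))

theorem no_raw_of_go {s t : ℕ} (hs : 0 < s) (ht : 0 < t)
    (hgo : go (fun A B C D d => !(labelOK (2 * s * t) A B C D d)) s t (2 * s * t)
      (2 * s * t - 1) 1 [0] [0] none = true) : ¬ Raw (2 * s * t) 2 s t := by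
  classical
  rintro ⟨A, B, c, hc, lA, lB, iA, iB, hAB, hr, hsur⟩
  have inj := sums_inj hsur
  have hN : 0 < 2 * s * t := by positivity
  obtain ⟨i, hi, x0, hx0, y0, hy0, e0⟩ := hsur c le_rfl (by omega)
  obtain ⟨j, hj, hij⟩ : ∃ j < 2, j ≠ i := ⟨1 - i, by omega, by omega⟩
  have hall : ∀ k < 2, k = i ∨ k = j := fun k hk => by omega
  obtain ⟨x1, hx1, mx1⟩ := Finset.exists_min_image (Finset.range s) (fun x => A j x)
    ⟨0, Finset.mem_range.mpr hs⟩
  obtain ⟨y1, hy1, my1⟩ := Finset.exists_min_image (Finset.range t) (fun y => B j y)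
    ⟨0, Finset.mem_range.mpr ht⟩
  rw [Finset.mem_range] at hx1 hy1
  have mx1' : ∀ x < s, A j x1 ≤ A j x := fun x hx => mx1 x (Finset.mem_range.mpr hx)
  have my1' : ∀ y < t, B j y1 ≤ B j y := fun y hy => my1 y (Finset.mem_range.mpr hy)
  have mx0 : ∀ x < s, A i x0 ≤ A i x := fun x hx => by
    have := hr i hi x hx y0 hy0
    omega
  have my0 : ∀ y < t, B i y0 ≤ B i y := fun y hy => by
    have := hr i hi x0 hx0 y hy
    omega
  have hd0 : c < A j x1 + B j y1 := by
    have h1 := hr j hj x1 hx1 y1 hy1
    rcases Nat.lt_or_ge c (A j x1 + B j y1) with h | h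
    · exact h
    · exfalso
      have := inj j hj x1 hx1 y1 hy1 i hi x0 hx0 y0 hy0 (by omega)
      exact hij this.1
  obtain ⟨d, hd⟩ : ∃ d, A j x1 + B j y1 = c + d := ⟨A j x1 + B j y1 - c, by omega⟩
  -- the tiling
  have T : Tiling (2 * s * t) ((Finset.range s).image fun x => A i x - A i x0)
      ((Finset.range t).image fun y => B i y - B i y0)
      ((Finset.range s).image fun x => A j x - A j x1)
      ((Finset.range t).image fun y => B j y - B j y1) d := by
    constructor
    · rw [Finset.mem_image]; exact ⟨x0, Finset.mem_range.mpr hx0, by simp⟩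
    · rw [Finset.mem_image]; exact ⟨y0, Finset.mem_range.mpr hy0, by simp⟩
    · rw [Finset.mem_image]; exact ⟨x1, Finset.mem_range.mpr hx1, by simp⟩
    · rw [Finset.mem_image]; exact ⟨y1, Finset.mem_range.mpr hy1, by simp⟩
    · omega
    · intro n hn
      obtain ⟨k, hk, x, hx, y, hy, e⟩ := hsur (c + n) (by omega) (by omega)
      rcases hall k hk with rfl | rfl
      · left
        refine ⟨A k x - A k x0, Finset.mem_image_of_mem _ (Finset.mem_range.mpr hx),
          B k y - B k y0, Finset.mem_image_of_mem _ (Finset.mem_range.mpr hy), ?_⟩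
        have := mx0 x hx
        have := my0 y hy
        omega
      · right
        refine ⟨A k x - A k x1, Finset.mem_image_of_mem _ (Finset.mem_range.mpr hx),
          B k y - B k y1, Finset.mem_image_of_mem _ (Finset.mem_range.mpr hy), ?_⟩
        have := mx1' x hx
        have := my1' y hy
        omega
    · intro a ha b hb
      obtain ⟨x, hx, rfl⟩ := Finset.mem_image.mp ha
      obtain ⟨y, hy, rfl⟩ := Finset.mem_image.mp hb
      rw [Finset.mem_range] at hx hy
      have := mx0 x hx
      have := my0 y hy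
      have := hr i hi x hx y hy
      omega
    · intro a ha b hb
      obtain ⟨x, hx, rfl⟩ := Finset.mem_image.mp ha
      obtain ⟨y, hy, rfl⟩ := Finset.mem_image.mp hb
      rw [Finset.mem_range] at hx hy
      have := mx1' x hx
      have := my1' y hy
      have := hr j hj x hx y hy
      omega
    · intro a ha b hb a' ha' b' hb' e
      obtain ⟨x, hx, rfl⟩ := Finset.mem_image.mp ha
      obtain ⟨y, hy, rfl⟩ := Finset.mem_image.mp hb
      obtain ⟨x', hx', rfl⟩ := Finset.mem_image.mp ha'
      obtain ⟨y', hy', rfl⟩ := Finset.mem_image.mp hb'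
      rw [Finset.mem_range] at hx hy hx' hy'
      have h1 := mx0 x hx
      have h2 := my0 y hy
      have h3 := mx0 x' hx'
      have h4 := my0 y' hy'
      obtain ⟨-, rfl, rfl⟩ := inj i hi x hx y hy i hi x' hx' y' hy' (by omega)
      exact ⟨rfl, rfl⟩
    · intro a ha b hb a' ha' b' hb' e
      obtain ⟨x, hx, rfl⟩ := Finset.mem_image.mp ha
      obtain ⟨y, hy, rfl⟩ := Finset.mem_image.mp hb
      obtain ⟨x', hx', rfl⟩ := Finset.mem_image.mp ha'
      obtain ⟨y', hy', rfl⟩ := Finset.mem_image.mp hb'
      rw [Finset.mem_range] at hx hy hx' hy'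
      have h1 := mx1' x hx
      have h2 := my1' y hy
      have h3 := mx1' x' hx'
      have h4 := my1' y' hy'
      obtain ⟨-, rfl, rfl⟩ := inj j hj x hx y hy j hj x' hx' y' hy' (by omega)
      exact ⟨rfl, rfl⟩
    · intro a ha b hb a' ha' b' hb' e
      obtain ⟨x, hx, rfl⟩ := Finset.mem_image.mp ha
      obtain ⟨y, hy, rfl⟩ := Finset.mem_image.mp hb
      obtain ⟨x', hx', rfl⟩ := Finset.mem_image.mp ha'
      obtain ⟨y', hy', rfl⟩ := Finset.mem_image.mp hb'
      rw [Finset.mem_range] at hx hy hx' hy'
      have h1 := mx0 x hx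
      have h2 := my0 y hy
      have h3 := mx1' x' hx'
      have h4 := my1' y' hy'
      have := inj i hi x hx y hy j hj x' hx' y' hy' (by omega)
      exact hij this.1.symm
  have cardA : ((Finset.range s).image fun x => A i x - A i x0).card = s := by
    rw [Finset.card_image_of_injOn, Finset.card_range]
    intro x hx y hy e
    simp only [Finset.coe_range, Set.mem_Iio] at hx hy
    have h1 := mx0 x hx
    have h2 := mx0 y hy
    dsimp only at e
    exact (iA i hi x hx i hi y hy (by omega)).2
  have cardB : ((Finset.range t).image fun x => B i x - B i y0).card = t := by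
    rw [Finset.card_image_of_injOn, Finset.card_range]
    intro x hx y hy e
    simp only [Finset.coe_range, Set.mem_Iio] at hx hy
    have h1 := my0 x hx
    have h2 := my0 y hy
    dsimp only at e
    exact (iB i hi x hx i hi y hy (by omega)).2
  have cardC : ((Finset.range s).image fun x => A j x - A j x1).card = s := by
    rw [Finset.card_image_of_injOn, Finset.card_range]
    intro x hx y hy e
    simp only [Finset.coe_range, Set.mem_Iio] at hx hy
    have h1 := mx1' x hx
    have h2 := mx1' y hy
    dsimp only at e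
    exact (iA j hj x hx j hj y hy (by omega)).2
  have cardD : ((Finset.range t).image fun x => B j x - B j y1).card = t := by
    rw [Finset.card_image_of_injOn, Finset.card_range]
    intro x hx y hy e
    simp only [Finset.coe_range, Set.mem_Iio] at hx hy
    have h1 := my1' x hx
    have h2 := my1' y hy
    dsimp only at e
    exact (iB j hj x hx j hj y hy (by omega)).2
  have single : ∀ S : Finset ℕ, 0 ∈ S → ∀ x, x ∈ [0] ↔ x ∈ S ∧ x < 1 := by
    intro S hS x
    rw [List.mem_singleton]
    constructor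
    · rintro rfl; exact ⟨hS, by omega⟩
    · rintro ⟨_, h⟩; omega
  obtain ⟨A', B', C', D', hA', hB', hC', hD', hΦ⟩ := go_sound T cardA cardB cardC cardD
    (2 * s * t - 1) 1 [0] [0] none (by omega) one_pos (by simp) (by simp) (single _ T.a0)
    (single _ T.b0) (by simp only [Inv2]; exact T.dpos) hgo
  rw [Bool.not_eq_true'] at hΦ
  have : labelOK (2 * s * t) A' B' C' D' d = true := by
    have memA : ∀ x, x ∈ sh (A i x0) A' ↔ ∃ k < s, A i k = x := by
      intro x
      rw [mem_sh]
      constructor
      · rintro ⟨a, ha, rfl⟩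
        obtain ⟨k, hk, rfl⟩ := Finset.mem_image.mp ((hA' a).mp ha)
        rw [Finset.mem_range] at hk
        have := mx0 k hk
        exact ⟨k, hk, by omega⟩
      · rintro ⟨k, hk, rfl⟩
        have := mx0 k hk
        exact ⟨A i k - A i x0, (hA' _).mpr (Finset.mem_image_of_mem _ (Finset.mem_range.mpr hk)),
          by omega⟩
    have memB : ∀ x, x ∈ sh (B i y0) B' ↔ ∃ k < t, B i k = x := by
      intro x
      rw [mem_sh]
      constructor
      · rintro ⟨a, ha, rfl⟩
        obtain ⟨k, hk, rfl⟩ := Finset.mem_image.mp ((hB' a).mp ha)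
        rw [Finset.mem_range] at hk
        have := my0 k hk
        exact ⟨k, hk, by omega⟩
      · rintro ⟨k, hk, rfl⟩
        have := my0 k hk
        exact ⟨B i k - B i y0, (hB' _).mpr (Finset.mem_image_of_mem _ (Finset.mem_range.mpr hk)),
          by omega⟩
    have memC : ∀ x, x ∈ sh (A j x1) C' ↔ ∃ k < s, A j k = x := by
      intro x
      rw [mem_sh]
      constructor
      · rintro ⟨a, ha, rfl⟩
        obtain ⟨k, hk, rfl⟩ := Finset.mem_image.mp ((hC' a).mp ha)
        rw [Finset.mem_range] at hk
        have := mx1' k hk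
        exact ⟨k, hk, by omega⟩
      · rintro ⟨k, hk, rfl⟩
        have := mx1' k hk
        exact ⟨A j k - A j x1, (hC' _).mpr (Finset.mem_image_of_mem _ (Finset.mem_range.mpr hk)),
          by omega⟩
    have memD : ∀ x, x ∈ sh (B j y1) D' ↔ ∃ k < t, B j k = x := by
      intro x
      rw [mem_sh]
      constructor
      · rintro ⟨a, ha, rfl⟩
        obtain ⟨k, hk, rfl⟩ := Finset.mem_image.mp ((hD' a).mp ha)
        rw [Finset.mem_range] at hk
        have := my1' k hk
        exact ⟨k, hk, by omega⟩
      · rintro ⟨k, hk, rfl⟩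
        have := my1' k hk
        exact ⟨B j k - B j y1, (hD' _).mpr (Finset.mem_image_of_mem _ (Finset.mem_range.mpr hk)),
          by omega⟩
    have fA : fit (2 * s * t) (sh (A i x0) A') = true := by
      rw [fit_iff]
      intro a ha
      obtain ⟨k, hk, rfl⟩ := (memA a).mp ha
      exact lA i hi k hk
    have fB : fit (2 * s * t) (sh (B i y0) B') = true := by
      rw [fit_iff]
      intro a ha
      obtain ⟨k, hk, rfl⟩ := (memB a).mp ha
      exact lB i hi k hk
    have fC : fit (2 * s * t) (sh (A j x1) C') = true := by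
      rw [fit_iff]
      intro a ha
      obtain ⟨k, hk, rfl⟩ := (memC a).mp ha
      exact lA j hj k hk
    have fD : fit (2 * s * t) (sh (B j y1) D') = true := by
      rw [fit_iff]
      intro a ha
      obtain ⟨k, hk, rfl⟩ := (memD a).mp ha
      exact lB j hj k hk
    have dAB : disj (sh (A i x0) A') (sh (B i y0) B') = true := by
      rw [disj_iff]
      intro a ha b hb
      obtain ⟨k, hk, rfl⟩ := (memA a).mp ha
      obtain ⟨l, hl, rfl⟩ := (memB b).mp hb
      exact hAB i hi k hk i hi l hl
    have dCA : disj (sh (A j x1) C') (sh (A i x0) A') = true := by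
      rw [disj_iff]
      intro a ha b hb
      obtain ⟨k, hk, rfl⟩ := (memC a).mp ha
      obtain ⟨l, hl, rfl⟩ := (memA b).mp hb
      exact fun h => hij (iA j hj k hk i hi l hl h).1
    have dCB : disj (sh (A j x1) C') (sh (B i y0) B') = true := by
      rw [disj_iff]
      intro a ha b hb
      obtain ⟨k, hk, rfl⟩ := (memC a).mp ha
      obtain ⟨l, hl, rfl⟩ := (memB b).mp hb
      exact hAB j hj k hk i hi l hl
    have dDA : disj (sh (B j y1) D') (sh (A i x0) A') = true := by
      rw [disj_iff]
      intro a ha b hb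
      obtain ⟨k, hk, rfl⟩ := (memD a).mp ha
      obtain ⟨l, hl, rfl⟩ := (memA b).mp hb
      exact (hAB i hi l hl j hj k hk).symm
    have dDB : disj (sh (B j y1) D') (sh (B i y0) B') = true := by
      rw [disj_iff]
      intro a ha b hb
      obtain ⟨k, hk, rfl⟩ := (memD a).mp ha
      obtain ⟨l, hl, rfl⟩ := (memB b).mp hb
      exact fun h => hij (iB j hj k hk i hi l hl h).1
    have dDC : disj (sh (B j y1) D') (sh (A j x1) C') = true := by
      rw [disj_iff]
      intro a ha b hb
      obtain ⟨k, hk, rfl⟩ := (memD a).mp ha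
      obtain ⟨l, hl, rfl⟩ := (memC b).mp hb
      exact (hAB j hj l hl j hj k hk).symm
    rw [labelOK, List.any_eq_true]
    refine ⟨A i x0, List.mem_range.mpr (lA i hi x0 hx0), ?_⟩
    rw [Bool.and_eq_true, List.any_eq_true]
    refine ⟨fA, B i y0, List.mem_range.mpr (lB i hi y0 hy0), ?_⟩
    rw [Bool.and_eq_true, Bool.and_eq_true, Bool.and_eq_true, List.any_eq_true]
    refine ⟨by rw [Nat.blt_eq]; omega, fB, dAB, A j x1,
      List.mem_range.mpr (lA j hj x1 hx1), ?_⟩
    have hv : A i x0 + B i y0 + d - A j x1 = B j y1 := by omega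
    rw [hv]
    simp only [Bool.and_eq_true]
    exact ⟨by rw [Nat.ble_eq]; omega, fC, dCA, dCB, fD, dDA, dDB, dDC⟩
  rw [this] at hΦ
  exact absurd hΦ (by decide)

theorem no23 : ¬ Raw (2 * 2 * 3) 2 2 3 :=
  no_raw_of_go (by norm_num) (by norm_num) (by decide +kernel)

theorem no33 : ¬ Raw (2 * 3 * 3) 2 3 3 :=
  no_raw_of_go (by norm_num) (by norm_num) (by decide +kernel)

end Pool.Agent.Helper93.Seq
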