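import Pool.Agent.Helper93.Seq.Basic

/-!
# Small sequential labelings
-/

namespace Pool.Agent.Helper93.Seq

/-- Table lookup. -/
def tab (l : List (List ℕ)) (i x : ℕ) : ℕ := (l.getD i []).getD x 0

theorem Raw.of_dec {m s t : ℕ} (A B : ℕ → ℕ → ℕ) (c : ℕ) (hc : 0 < c)
    (h1 : ∀ i < m, ∀ x < s, A i x < m * s * t) (h2 : ∀ i < m, ∀ y < t, B i y < m * s * t)
    (h3 : ∀ i < m, ∀ x < s, ∀ j < m, ∀ y < s, (i = j ∧ x = y) ∨ A i x ≠ A j y)
    (h4 : ∀ i < m, ∀ x < t, ∀ j < m, ∀ y < t, (i = j ∧ x = y) ∨ B i x ≠ B j y)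
    (h5 : ∀ i < m, ∀ x < s, ∀ j < m, ∀ y < t, A i x ≠ B j y)
    (h6 : ∀ i < m, ∀ x < s, ∀ y < t, c ≤ A i x + B i y ∧ A i x + B i y < c + m * s * t)
    (h7 : ∀ n < m * s * t, ∃ i < m, ∃ x < s, ∃ y < t, A i x + B i y = c + n) :
    Raw (m * s * t) m s t := by
  refine ⟨A, B, c, hc, h1, h2, fun i hi x hx j hj y hy e => ?_,
    fun i hi x hx j hj y hy e => ?_, h5, h6, fun n hn hn' => ?_⟩
  · exact (h3 i hi x hx j hj y hy).resolve_right fun h => h e
  · exact (h4 i hi x hx j hj y hy).resolve_right fun h => h e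
  · obtain ⟨i, hi, x, hx, y, hy, e⟩ := h7 (n - c) (by omega)
    exact ⟨i, hi, x, hx, y, hy, by omega⟩

theorem small323 : Raw (3 * 2 * 3) 3 2 3 :=
  Raw.of_dec (tab [[0, 1], [3, 4], [2, 9]]) (tab [[5, 7, 16], [6, 8, 15], [11, 12, 13]]) 5
    (by decide) (by decide) (by decide) (by decide) (by decide) (by decide) (by decide)
    (by decide)

theorem small423 : Raw (4 * 2 * 3) 4 2 3 :=
  Raw.of_dec (tab [[8, 9], [15, 16], [6, 7], [10, 19]])
    (tab [[1, 3, 5], [0, 2, 4], [18, 20, 22], [11, 12, 13]]) 9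
    (by decide) (by decide) (by decide) (by decide) (by decide) (by decide) (by decide)
    (by decide)

theorem small333 : Raw (3 * 3 * 3) 3 3 3 :=
  Raw.of_dec (tab [[4, 5, 6], [17, 18, 19], [8, 20, 23]])
    (tab [[7, 10, 13], [9, 12, 15], [0, 1, 2]]) 8
    (by decide) (by decide) (by decide) (by decide) (by decide) (by decide) (by decide)
    (by decide)

/-- `m K_{3,3}`, `m = n + 4`. -/
theorem threeThree (n : ℕ) : Raw ((n + 4) * 3 * 3) (n + 4) 3 3 := by
  refine ⟨fun i x => if i = 0 then x else if i = 1 then (if x = 0 then 4 * n + 9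
      else 4 * n + 18 + 3 * x) else 4 * i + 2 + x,
    fun i y => if i = 0 then 4 * n + 17 + 3 * y else if i = 1 then 5 + y
      else 4 * n + 12 + 5 * i + 3 * y, 4 * n + 14, by omega, ?_, ?_, ?_, ?_, ?_, ?_, ?_⟩
  · intro i hi x hx
    dsimp only
    split_ifs <;> omega
  · intro i hi x hx
    dsimp only
    split_ifs <;> omega
  · intro i hi x hx j hj y hy
    dsimp only
    split_ifs <;> omega
  · intro i hi x hx j hj y hy
    dsimp only
    split_ifs <;> omega
  · intro i hi x hx j hj y hy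
    dsimp only
    split_ifs <;> omega
  · intro i hi x hx y hy
    dsimp only
    split_ifs <;> omega
  · intro k h1 h2
    dsimp only
    by_cases c1 : k < 4 * n + 17
    · refine ⟨1, by omega, 0, by omega, k - (4 * n + 14), by omega, ?_⟩
      simp only [if_true, if_neg (show ¬(1 = 0) by omega)]
      omega
    by_cases c2 : k < 4 * n + 26
    · refine ⟨0, by omega, (k - (4 * n + 17)) % 3, by omega, (k - (4 * n + 17)) / 3, by omega, ?_⟩
      simp only [if_true]
      omega
    by_cases c3 : k < 4 * n + 32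
    · refine ⟨1, by omega, 1 + (k - (4 * n + 26)) / 3, by omega, (k - (4 * n + 26)) % 3,
        by omega, ?_⟩
      rw [if_neg (by omega), if_pos rfl, if_neg (by omega), if_neg (by omega), if_pos rfl]
      omega
    · refine ⟨2 + (k - (4 * n + 32)) / 9, by omega, (k - (4 * n + 32)) % 3, by omega,
        ((k - (4 * n + 32)) % 9) / 3, by omega, ?_⟩
      rw [if_neg (by omega), if_neg (by omega), if_neg (by omega), if_neg (by omega)]
      omega

end Pool.Agent.Helper93.Seq
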