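import Pool.Agent.Helper93.Seq.Basic

/-!
# Sequential labelings of `m K_{2,3}`, `m ≥ 3`
-/

namespace Pool.Agent.Helper93.Seq

theorem twoThree_even (a : ℕ) (ha : 2 ≤ a) :
    Raw ((2 * a + 2) * 2 * 3) (2 * a + 2) 2 3 := by
  refine ⟨fun i x => if i = 0 then 3 * a - 2 + 3 * x else if i ≤ a then 3 * i - 1 + x
      else if i = a + 1 then x else 3 * i + x,
    fun i y => if i = 0 then 3 * a + 3 + y else if i ≤ a then 6 * a + 2 + 3 * i + 2 * y
      else if i = a + 1 then 12 * a + 7 + 2 * y else 6 * a + 1 + 3 * i + 2 * y,
    6 * a + 1, by omega, ?_, ?_, ?_, ?_, ?_, ?_, ?_⟩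
  · intro i hi x hx
    dsimp only
    split_ifs <;> omega
  · intro i hi x hx
    dsimp only
    split_ifs <;> omega
  · intro i hi x hx j hj y hy
    dsimp only
    split_ifs <;> omega
  · intro i hi x hx j hj y hy
    dsimp only
    split_ifs <;> omega
  · intro i hi x hx j hj y hy
    dsimp only
    split_ifs <;> omega
  · intro i hi x hx y hy
    dsimp only
    split_ifs <;> omega
  · intro n h1 h2
    dsimp only
    by_cases c1 : n < 6 * a + 7
    · refine ⟨0, by omega, (n - (6 * a + 1)) / 3, by omega, (n - (6 * a + 1)) % 3, by omega, ?_⟩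
      simp only [if_true]
      omega
    by_cases c2 : n < 12 * a + 7
    · refine ⟨1 + (n - (6 * a + 7)) / 6, by omega, (n - (6 * a + 7)) % 2, by omega,
        ((n - (6 * a + 7)) % 6) / 2, by omega, ?_⟩
      rw [if_neg (by omega), if_pos (by omega), if_neg (by omega), if_pos (by omega)]
      omega
    by_cases c3 : n < 12 * a + 13
    · refine ⟨a + 1, by omega, (n - (12 * a + 7)) % 2, by omega,
        (n - (12 * a + 7)) / 2, by omega, ?_⟩
      rw [if_neg (by omega), if_neg (by omega), if_pos (by omega), if_neg (by omega),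
        if_neg (by omega), if_pos (by omega)]
      omega
    · refine ⟨a + 2 + (n - (12 * a + 13)) / 6, by omega, (n - (12 * a + 13)) % 2, by omega,
        ((n - (12 * a + 13)) % 6) / 2, by omega, ?_⟩
      rw [if_neg (by omega), if_neg (by omega), if_neg (by omega), if_neg (by omega),
        if_neg (by omega), if_neg (by omega)]
      omega

theorem twoThree_odd (a : ℕ) (ha : 1 ≤ a) :
    Raw ((2 * a + 3) * 2 * 3) (2 * a + 3) 2 3 := by
  refine ⟨fun i x => if i = 0 then 6 * a + 5 + 3 * x else if i ≤ a then 3 * i + 3 + x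
      else if i = a + 1 then x else if i = a + 2 then 9 * a + 12 + x
      else 6 * a + 5 + 3 * i + x,
    fun i y => if i = 0 then 2 + y else if i ≤ a then 6 * a + 4 + 3 * i + 2 * y
      else if i = a + 1 then 12 * a + 13 + 2 * y else if i = a + 2 then 9 * a + 7 + 2 * y
      else 3 * i - 4 + 2 * y,
    6 * a + 7, by omega, ?_, ?_, ?_, ?_, ?_, ?_, ?_⟩
  · intro i hi x hx
    dsimp only
    split_ifs <;> omega
  · intro i hi x hx
    dsimp only
    split_ifs <;> omega
  · intro i hi x hx j hj y hy
    dsimp only
    split_ifs <;> omega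
  · intro i hi x hx j hj y hy
    dsimp only
    split_ifs <;> omega
  · intro i hi x hx j hj y hy
    dsimp only
    split_ifs <;> omega
  · intro i hi x hx y hy
    dsimp only
    split_ifs <;> omega
  · intro n h1 h2
    dsimp only
    by_cases c1 : n < 6 * a + 13
    · refine ⟨0, by omega, (n - (6 * a + 7)) / 3, by omega, (n - (6 * a + 7)) % 3, by omega, ?_⟩
      simp only [if_true]
      omega
    by_cases c2 : n < 12 * a + 13
    · refine ⟨1 + (n - (6 * a + 13)) / 6, by omega, (n - (6 * a + 13)) % 2, by omega,
        ((n - (6 * a + 13)) % 6) / 2, by omega, ?_⟩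
      rw [if_neg (by omega), if_pos (by omega), if_neg (by omega), if_pos (by omega)]
      omega
    by_cases c3 : n < 12 * a + 19
    · refine ⟨a + 1, by omega, (n - (12 * a + 13)) % 2, by omega,
        (n - (12 * a + 13)) / 2, by omega, ?_⟩
      rw [if_neg (by omega), if_neg (by omega), if_pos (by omega), if_neg (by omega),
        if_neg (by omega), if_pos (by omega)]
      omega
    by_cases c4 : n < 18 * a + 19
    · refine ⟨a + 3 + (n - (12 * a + 19)) / 6, by omega, (n - (12 * a + 19)) % 2, by omega,
        ((n - (12 * a + 19)) % 6) / 2, by omega, ?_⟩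
      rw [if_neg (by omega), if_neg (by omega), if_neg (by omega), if_neg (by omega),
        if_neg (by omega), if_neg (by omega), if_neg (by omega), if_neg (by omega)]
      omega
    · refine ⟨a + 2, by omega, (n - (18 * a + 19)) % 2, by omega,
        (n - (18 * a + 19)) / 2, by omega, ?_⟩
      rw [if_neg (by omega), if_neg (by omega), if_neg (by omega), if_pos (by omega),
        if_neg (by omega), if_neg (by omega), if_neg (by omega), if_pos (by omega)]
      omega

end Pool.Agent.Helper93.Seq
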