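import Pool.Agent.Helper93.Seq.NoOne
import Pool.Agent.Helper93.Seq.Composite
import Pool.Agent.Helper93.Seq.Equal
import Pool.Agent.Helper93.Seq.Small
import Pool.Agent.Helper93.Seq.TwoThree

/-!
# Which `m K_{s,t}` have a labeling with labels below `m s t`
-/

namespace Pool.Agent.Helper93.Seq

/-- The condition. -/
def Cond (m s t : ℕ) : Prop :=
  2 ≤ m ∧ 2 ≤ s ∧ 2 ≤ t ∧ ¬ (s = 2 ∧ t = 2) ∧
    (m = 2 → ¬ (s = 2 ∧ t = 3) ∧ ¬ (s = 3 ∧ t = 2) ∧ ¬ (s = t ∧ s.Prime))

theorem raw_of_lt {m s t : ℕ} (hm : 2 ≤ m) (hs : 2 ≤ s) (hst : s < t)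
    (h2 : m = 2 → ¬ (s = 2 ∧ t = 3)) : Raw (m * s * t) m s t := by
  by_cases h23 : s = 2 ∧ t = 3
  · obtain ⟨rfl, rfl⟩ := h23
    have hm2 : m ≠ 2 := fun h => h2 h ⟨rfl, rfl⟩
    rcases Nat.even_or_odd' m with ⟨k, rfl | rfl⟩
    · rcases Nat.lt_or_ge k 3 with h | h
      · have : k = 2 := by omega
        subst this
        exact small423
      · obtain ⟨a, rfl⟩ : ∃ a, k = a + 1 := ⟨k - 1, by omega⟩
        have := twoThree_even a (by omega)
        have e : 2 * (a + 1) = 2 * a + 2 := by ring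
        rw [e]; exact this
    · rcases Nat.lt_or_ge k 2 with h | h
      · have : k = 1 := by omega
        subst this
        exact small323
      · obtain ⟨a, rfl⟩ : ∃ a, k = a + 1 := ⟨k - 1, by omega⟩
        have := twoThree_odd a (by omega)
        have e : 2 * (a + 1) + 1 = 2 * a + 3 := by ring
        rw [e]; exact this
  · obtain ⟨n, rfl⟩ : ∃ n, m = n + 2 := ⟨m - 2, by omega⟩
    exact general s t n hs hst h23

theorem raw_of_eq {m s : ℕ} (hm : 2 ≤ m) (hs : 3 ≤ s) (h2 : m = 2 → ¬ s.Prime) :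
    Raw (m * s * s) m s s := by
  rcases Nat.lt_or_ge m 3 with h | h
  · have : m = 2 := by omega
    subst this
    obtain ⟨a, ha, hlt, ha2⟩ : ∃ a, a ∣ s ∧ a < s ∧ 2 ≤ a := by
      refine ⟨s.minFac, Nat.minFac_dvd s, ?_, (Nat.minFac_prime (by omega)).two_le⟩
      exact (Nat.not_prime_iff_minFac_lt (by omega)).mp (h2 rfl)
    obtain ⟨b, rfl⟩ := ha
    have hb : 2 ≤ b := by
      rcases Nat.lt_or_ge b 2 with hb | hb
      · interval_cases b
        · omega
        · omega
      · exact hb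
    exact composite a b ha2 hb
  · rcases Nat.lt_or_ge s 4 with h4 | h4
    · have : s = 3 := by omega
      subst this
      rcases Nat.lt_or_ge m 4 with h5 | h5
      · have : m = 3 := by omega
        subst this
        exact small333
      · obtain ⟨n, rfl⟩ : ∃ n, m = n + 4 := ⟨m - 4, by omega⟩
        exact threeThree n
    · obtain ⟨n, rfl⟩ : ∃ n, m = n + 3 := ⟨m - 3, by omega⟩
      exact equal s n h4

/-- The classification, `2 K_{p,p}` with `p ≥ 5` prime excepted. -/
theorem raw_iff {m s t : ℕ} (hm : 0 < m) (hs : 0 < s) (ht : 0 < t)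
    (hp : ¬ (m = 2 ∧ s = t ∧ s.Prime ∧ 5 ≤ s)) : Raw (m * s * t) m s t ↔ Cond m s t := by
  have esymm : ∀ m s t : ℕ, m * s * t = m * t * s := fun m s t => by ring
  constructor
  · intro h
    have h1 : m ≠ 1 := by
      rintro rfl
      exact no_one s t hs ht h
    have h2 : s ≠ 1 := by
      rintro rfl
      exact no_star m t hm h
    have h3 : t ≠ 1 := by
      rintro rfl
      have h' := h.symm
      rw [esymm] at h'
      exact no_star m s hm h'
    refine ⟨by omega, by omega, by omega, ?_, ?_⟩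
    · rintro ⟨rfl, rfl⟩
      exact no_two_two m hm h
    · rintro rfl
      refine ⟨?_, ?_, ?_⟩
      · rintro ⟨rfl, rfl⟩
        exact no23 h
      · rintro ⟨rfl, rfl⟩
        exact no23 h.symm
      · rintro ⟨rfl, hpr⟩
        have h5 : s < 5 := by
          by_contra hlt
          exact hp ⟨rfl, rfl, hpr, by omega⟩
        have h6 := hpr.two_le
        interval_cases s
        · exact no_two_two 2 (by norm_num) h
        · exact no33 h
        · exact absurd hpr (by norm_num)
  · rintro ⟨h1, h2, h3, h4, h5⟩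
    rcases Nat.lt_trichotomy s t with hlt | rfl | hlt
    · exact raw_of_lt h1 h2 hlt fun e => (h5 e).1
    · exact raw_of_eq h1 (by omega) fun e h => (h5 e).2.2 ⟨rfl, h⟩
    · have := (raw_of_lt h1 h3 hlt fun e h => (h5 e).2.1 ⟨h.2, h.1⟩).symm
      rw [esymm]
      exact this

end Pool.Agent.Helper93.Seq
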