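import Pool.Agent.Helper93.Seq.Basic

/-!
# A verified exhaustive search for `2 K_{s,t}`
-/

namespace Pool.Agent.Helper93.Seq

/-- A tiling of `[0, N)` by the two direct sums `SA + SB` and `d + SC + SD`. -/
structure Tiling (N : ℕ) (SA SB SC SD : Finset ℕ) (d : ℕ) : Prop where
  a0 : 0 ∈ SA
  b0 : 0 ∈ SB
  c0 : 0 ∈ SC
  d0 : 0 ∈ SD
  dpos : 0 < d
  cov : ∀ n < N, (∃ a ∈ SA, ∃ b ∈ SB, a + b = n) ∨ (∃ a ∈ SC, ∃ b ∈ SD, d + a + b = n)
  lt1 : ∀ a ∈ SA, ∀ b ∈ SB, a + b < N
  lt2 : ∀ a ∈ SC, ∀ b ∈ SD, d + a + b < N
  u1 : ∀ a ∈ SA, ∀ b ∈ SB, ∀ a' ∈ SA, ∀ b' ∈ SB, a + b = a' + b' → a = a' ∧ b = b'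
  u2 : ∀ a ∈ SC, ∀ b ∈ SD, ∀ a' ∈ SC, ∀ b' ∈ SD, d + a + b = d + a' + b' → a = a' ∧ b = b'
  u3 : ∀ a ∈ SA, ∀ b ∈ SB, ∀ a' ∈ SC, ∀ b' ∈ SD, a + b ≠ d + a' + b'

/-- Is `n` a sum `e + a + b`? -/
def covd (e : ℕ) (A B : List ℕ) (n : ℕ) : Bool := A.any fun a => B.any fun b => Nat.beq (e + a + b) n

theorem covd_iff {e : ℕ} {A B : List ℕ} {n : ℕ} :
    covd e A B n = true ↔ ∃ a ∈ A, ∃ b ∈ B, e + a + b = n := by
  simp [covd, Nat.beq_eq]

/-- The state of the second component. -/
def cov2 : Option (ℕ × List ℕ × List ℕ) → ℕ → Bool
  | none, _ => false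
  | some (d, C, D), n => covd d C D n

/-- Coverage by both components. -/
def covs (A B : List ℕ) (st : Option (ℕ × List ℕ × List ℕ)) (n : ℕ) : Bool :=
  covd 0 A B n || cov2 st n

/-- The search: `k` cells are left, `q` is the current cell; all complete tilings have to satisfy
`Φ`. -/
def go (Φ : List ℕ → List ℕ → List ℕ → List ℕ → ℕ → Bool) (s t N : ℕ) :
    ℕ → ℕ → List ℕ → List ℕ → Option (ℕ × List ℕ × List ℕ) → Bool
  | 0, _, A, B, st => match st with
    | none => true
    | some (d, C, D) => Φ A B C D d
  | k + 1, q, A, B, st =>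
    if covs A B st q = true then go Φ s t N k (q + 1) A B st
    else
      (if (Nat.blt A.length s && B.all fun b => Nat.blt (q + b) N && !(covs A B st (q + b))) = true
        then go Φ s t N k (q + 1) (q :: A) B st else true) &&
      ((if (Nat.blt B.length t && A.all fun a => Nat.blt (q + a) N && !(covs A B st (q + a))) = true
        then go Φ s t N k (q + 1) A (q :: B) st else true) &&
      match st with
      | none => go Φ s t N k (q + 1) A B (some (q, [0], [0]))
      | some (d, C, D) =>
        (if (Nat.blt C.length s &&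
            D.all fun b => Nat.blt (q + b) N && !(covs A B st (q + b))) = true
          then go Φ s t N k (q + 1) A B (some (d, (q - d) :: C, D)) else true) &&
        (if (Nat.blt D.length t &&
            C.all fun a => Nat.blt (q + a) N && !(covs A B st (q + a))) = true
          then go Φ s t N k (q + 1) A B (some (d, C, (q - d) :: D)) else true))

/-- The invariant of the second component. -/
def Inv2 (SC SD : Finset ℕ) (d q : ℕ) : Option (ℕ × List ℕ × List ℕ) → Prop
  | none => q ≤ d
  | some (d', C, D) => d' = d ∧ d < q ∧ C.Nodup ∧ D.Nodup ∧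
      (∀ x, x ∈ C ↔ x ∈ SC ∧ d + x < q) ∧ (∀ x, x ∈ D ↔ x ∈ SD ∧ d + x < q)

theorem len_lt {A : List ℕ} {S : Finset ℕ} {s q : ℕ} (hn : A.Nodup) (hA : ∀ x ∈ A, x ∈ S)
    (hq : q ∈ S) (hqA : q ∉ A) (hs : S.card = s) : Nat.blt A.length s = true := by
  have h1 : (q :: A).Nodup := List.nodup_cons.mpr ⟨hqA, hn⟩
  have h2 : (q :: A).toFinset ⊆ S := by
    intro x hx
    rw [List.mem_toFinset, List.mem_cons] at hx
    rcases hx with rfl | hx
    · exact hq
    · exact hA x hx
  have h3 := Finset.card_le_card h2
  rw [List.toFinset_card_of_nodup h1, hs, List.length_cons] at h3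
  rw [Nat.blt_eq]
  omega

theorem go_sound {Φ : List ℕ → List ℕ → List ℕ → List ℕ → ℕ → Bool} {s t N : ℕ}
    {SA SB SC SD : Finset ℕ} {d : ℕ} (T : Tiling N SA SB SC SD d)
    (sA : SA.card = s) (sB : SB.card = t) (sC : SC.card = s) (sD : SD.card = t) :
    ∀ (k q : ℕ) (A B : List ℕ) (st : Option (ℕ × List ℕ × List ℕ)), q + k = N → 0 < q →
      A.Nodup → B.Nodup → (∀ x, x ∈ A ↔ x ∈ SA ∧ x < q) → (∀ x, x ∈ B ↔ x ∈ SB ∧ x < q) →
      Inv2 SC SD d q st → go Φ s t N k q A B st = true →
      ∃ A' B' C' D' : List ℕ, (∀ x, x ∈ A' ↔ x ∈ SA) ∧ (∀ x, x ∈ B' ↔ x ∈ SB) ∧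
        (∀ x, x ∈ C' ↔ x ∈ SC) ∧ (∀ x, x ∈ D' ↔ x ∈ SD) ∧ Φ A' B' C' D' d = true := by
  intro k
  induction k with
  | zero =>
    intro q A B st hq h0 nA nB hA hB hst hgo
    rw [add_zero] at hq
    subst hq
    have dlt : d < q := by
      have := T.lt2 0 T.c0 0 T.d0
      omega
    match st, hst, hgo with
    | none, hst, _ => exact absurd hst (by simp only [Inv2]; omega)
    | some (d', C, D), hst, hgo =>
      obtain ⟨rfl, -, nC, nD, hC, hD⟩ := hst
      refine ⟨A, B, C, D, fun x => ?_, fun x => ?_, fun x => ?_, fun x => ?_, hgo⟩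
      · rw [hA]
        exact ⟨fun h => h.1, fun h => ⟨h, by have := T.lt1 x h 0 T.b0; omega⟩⟩
      · rw [hB]
        exact ⟨fun h => h.1, fun h => ⟨h, by have := T.lt1 0 T.a0 x h; omega⟩⟩
      · rw [hC]
        exact ⟨fun h => h.1, fun h => ⟨h, by have := T.lt2 x h 0 T.d0; omega⟩⟩
      · rw [hD]
        exact ⟨fun h => h.1, fun h => ⟨h, by have := T.lt2 0 T.c0 x h; omega⟩⟩
  | succ k ih =>
    intro q A B st hq h0 nA nB hA hB hst hgo
    -- coverage by listed elements
    have cv1 : ∀ n, covd 0 A B n = true → ∃ a ∈ SA, ∃ b ∈ SB, a < q ∧ b < q ∧ a + b = n := by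
      intro n hn
      obtain ⟨a, ha, b, hb, e⟩ := covd_iff.mp hn
      exact ⟨a, ((hA a).mp ha).1, b, ((hB b).mp hb).1, ((hA a).mp ha).2, ((hB b).mp hb).2,
        by omega⟩
    have cv2 : ∀ n, cov2 st n = true → ∃ a ∈ SC, ∃ b ∈ SD, d + a < q ∧ d + b < q ∧
        d + a + b = n := by
      intro n hn
      match st, hst, hn with
      | none, _, hn => exact absurd hn (by simp [cov2])
      | some (d', C, D), hst, hn =>
        obtain ⟨rfl, -, nC, nD, hC, hD⟩ := hst
        obtain ⟨a, ha, b, hb, e⟩ := covd_iff.mp hn
        exact ⟨a, ((hC a).mp ha).1, b, ((hD b).mp hb).1, ((hC a).mp ha).2, ((hD b).mp hb).2, e⟩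
    have cvs : ∀ n, covs A B st n = true →
        (∃ a ∈ SA, ∃ b ∈ SB, a < q ∧ b < q ∧ a + b = n) ∨
        (∃ a ∈ SC, ∃ b ∈ SD, d + a < q ∧ d + b < q ∧ d + a + b = n) := by
      intro n hn
      rw [covs, Bool.or_eq_true] at hn
      exact hn.imp (cv1 n) (cv2 n)
    -- extension of the invariants when the new cell is not in the set
    have keepA : q ∉ SA → ∀ x, x ∈ A ↔ x ∈ SA ∧ x < q + 1 := by
      intro h x
      rw [hA]
      constructor
      · rintro ⟨h1, h2⟩; exact ⟨h1, by omega⟩
      · rintro ⟨h1, h2⟩
        refine ⟨h1, ?_⟩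
        rcases Nat.lt_or_ge x q with h3 | h3
        · exact h3
        · have : x = q := by omega
          subst this
          exact absurd h1 h
    have keepB : q ∉ SB → ∀ x, x ∈ B ↔ x ∈ SB ∧ x < q + 1 := by
      intro h x
      rw [hB]
      constructor
      · rintro ⟨h1, h2⟩; exact ⟨h1, by omega⟩
      · rintro ⟨h1, h2⟩
        refine ⟨h1, ?_⟩
        rcases Nat.lt_or_ge x q with h3 | h3
        · exact h3
        · have : x = q := by omega
          subst this
          exact absurd h1 h
    have keep2 : d ≠ q → (d < q → q - d ∉ SC) → (d < q → q - d ∉ SD) →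
        Inv2 SC SD d (q + 1) st := by
      intro h1 h2 h3
      match st, hst with
      | none, hst => simp only [Inv2] at hst ⊢; omega
      | some (d', C, D), hst =>
        obtain ⟨rfl, hd, nC, nD, hC, hD⟩ := hst
        refine ⟨rfl, by omega, nC, nD, fun x => ?_, fun x => ?_⟩
        · rw [hC]
          constructor
          · rintro ⟨h4, h5⟩; exact ⟨h4, by omega⟩
          · rintro ⟨h4, h5⟩
            refine ⟨h4, ?_⟩
            rcases Nat.lt_or_ge (d' + x) q with h6 | h6
            · exact h6
            · have : x = q - d' := by omega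
              subst this
              exact absurd h4 (h2 hd)
        · rw [hD]
          constructor
          · rintro ⟨h4, h5⟩; exact ⟨h4, by omega⟩
          · rintro ⟨h4, h5⟩
            refine ⟨h4, ?_⟩
            rcases Nat.lt_or_ge (d' + x) q with h6 | h6
            · exact h6
            · have : x = q - d' := by omega
              subst this
              exact absurd h4 (h3 hd)
    have qN : q < N := by omega
    rw [go.eq_def] at hgo
    dsimp only at hgo
    by_cases hc : covs A B st q = true
    · rw [if_pos hc] at hgo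
      refine ih (q + 1) A B st (by omega) (by omega) nA nB ?_ ?_ ?_ hgo
      · refine keepA fun hqA => ?_
        rcases cvs q hc with ⟨a, ha, b, hb, h1, h2, e⟩ | ⟨a, ha, b, hb, h1, h2, e⟩
        · have := T.u1 a ha b hb q hqA 0 T.b0 (by omega)
          omega
        · exact T.u3 q hqA 0 T.b0 a ha b hb (by omega)
      · refine keepB fun hqB => ?_
        rcases cvs q hc with ⟨a, ha, b, hb, h1, h2, e⟩ | ⟨a, ha, b, hb, h1, h2, e⟩
        · have := T.u1 a ha b hb 0 T.a0 q hqB (by omega)
          omega
        · exact T.u3 0 T.a0 q hqB a ha b hb (by omega)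
      · refine keep2 (fun hdq => ?_) (fun hd hqC => ?_) (fun hd hqD => ?_)
        · rcases cvs q hc with ⟨a, ha, b, hb, h1, h2, e⟩ | ⟨a, ha, b, hb, h1, h2, e⟩
          · exact T.u3 a ha b hb 0 T.c0 0 T.d0 (by omega)
          · omega
        · rcases cvs q hc with ⟨a, ha, b, hb, h1, h2, e⟩ | ⟨a, ha, b, hb, h1, h2, e⟩
          · exact T.u3 a ha b hb (q - d) hqC 0 T.d0 (by omega)
          · have := T.u2 a ha b hb (q - d) hqC 0 T.d0 (by omega)
            omega
        · rcases cvs q hc with ⟨a, ha, b, hb, h1, h2, e⟩ | ⟨a, ha, b, hb, h1, h2, e⟩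
          · exact T.u3 a ha b hb 0 T.c0 (q - d) hqD (by omega)
          · have := T.u2 a ha b hb 0 T.c0 (q - d) hqD (by omega)
            omega
    · rw [if_neg hc] at hgo
      obtain ⟨g1, g23⟩ := Bool.and_eq_true_iff.mp hgo
      obtain ⟨g2, g3⟩ := Bool.and_eq_true_iff.mp g23
      -- the case `q ∈ SA`
      by_cases cA : q ∈ SA
      · have test : (Nat.blt A.length s &&
            B.all fun b => Nat.blt (q + b) N && !(covs A B st (q + b))) = true := by
          rw [Bool.and_eq_true]
          refine ⟨len_lt nA (fun x hx => ((hA x).mp hx).1) cA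
            (fun h => by have := ((hA q).mp h).2; omega) sA, ?_⟩
          rw [List.all_eq_true]
          intro b hb
          have hb' := ((hB b).mp hb).1
          rw [Bool.and_eq_true, Nat.blt_eq, Bool.not_eq_true']
          refine ⟨T.lt1 q cA b hb', ?_⟩
          rw [← Bool.not_eq_true]
          intro h
          rcases cvs _ h with ⟨a, ha, b', hb'', h1, h2, e⟩ | ⟨a, ha, b', hb'', h1, h2, e⟩
          · have := T.u1 a ha b' hb'' q cA b hb' e
            omega
          · exact T.u3 q cA b hb' a ha b' hb'' e.symm
        rw [if_pos test] at g1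
        refine ih (q + 1) (q :: A) B st (by omega) (by omega)
          (List.nodup_cons.mpr ⟨fun h => by have := ((hA q).mp h).2; omega, nA⟩) nB ?_ ?_ ?_ g1
        · intro x
          rw [List.mem_cons, hA]
          constructor
          · rintro (rfl | ⟨h1, h2⟩)
            · exact ⟨cA, by omega⟩
            · exact ⟨h1, by omega⟩
          · rintro ⟨h1, h2⟩
            rcases Nat.lt_or_ge x q with h3 | h3
            · exact Or.inr ⟨h1, h3⟩
            · exact Or.inl (by omega)
        · refine keepB fun hqB => ?_
          have := T.u1 q cA 0 T.b0 0 T.a0 q hqB (by omega)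
          omega
        · refine keep2 (fun hdq => ?_) (fun hd hqC => ?_) (fun hd hqD => ?_)
          · exact T.u3 q cA 0 T.b0 0 T.c0 0 T.d0 (by omega)
          · exact T.u3 q cA 0 T.b0 (q - d) hqC 0 T.d0 (by omega)
          · exact T.u3 q cA 0 T.b0 0 T.c0 (q - d) hqD (by omega)
      by_cases cB : q ∈ SB
      · have test : (Nat.blt B.length t &&
            A.all fun a => Nat.blt (q + a) N && !(covs A B st (q + a))) = true := by
          rw [Bool.and_eq_true]
          refine ⟨len_lt nB (fun x hx => ((hB x).mp hx).1) cB
            (fun h => by have := ((hB q).mp h).2; omega) sB, ?_⟩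
          rw [List.all_eq_true]
          intro a ha
          have ha' := ((hA a).mp ha).1
          rw [Bool.and_eq_true, Nat.blt_eq, Bool.not_eq_true']
          refine ⟨by have := T.lt1 a ha' q cB; omega, ?_⟩
          rw [← Bool.not_eq_true]
          intro h
          rcases cvs _ h with ⟨a', ha'', b', hb'', h1, h2, e⟩ | ⟨a', ha'', b', hb'', h1, h2, e⟩
          · have := T.u1 a' ha'' b' hb'' a ha' q cB (by omega)
            omega
          · exact T.u3 a ha' q cB a' ha'' b' hb'' (by omega)
        rw [if_pos test] at g2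
        refine ih (q + 1) A (q :: B) st (by omega) (by omega) nA
          (List.nodup_cons.mpr ⟨fun h => by have := ((hB q).mp h).2; omega, nB⟩) ?_ ?_ ?_ g2
        · exact keepA cA
        · intro x
          rw [List.mem_cons, hB]
          constructor
          · rintro (rfl | ⟨h1, h2⟩)
            · exact ⟨cB, by omega⟩
            · exact ⟨h1, by omega⟩
          · rintro ⟨h1, h2⟩
            rcases Nat.lt_or_ge x q with h3 | h3
            · exact Or.inr ⟨h1, h3⟩
            · exact Or.inl (by omega)
        · refine keep2 (fun hdq => ?_) (fun hd hqC => ?_) (fun hd hqD => ?_)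
          · exact T.u3 0 T.a0 q cB 0 T.c0 0 T.d0 (by omega)
          · exact T.u3 0 T.a0 q cB (q - d) hqC 0 T.d0 (by omega)
          · exact T.u3 0 T.a0 q cB 0 T.c0 (q - d) hqD (by omega)
      -- now `q` is covered by the second component
      have hcv : ∃ a ∈ SC, ∃ b ∈ SD, d + a + b = q := by
        rcases T.cov q qN with ⟨a, ha, b, hb, e⟩ | h
        · exfalso
          have ha' : a < q := by
            rcases Nat.lt_or_ge a q with h | h
            · exact h
            · have : a = q := by omega
              exact absurd (this ▸ ha) cA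
          have hb' : b < q := by
            rcases Nat.lt_or_ge b q with h | h
            · exact h
            · have : b = q := by omega
              exact absurd (this ▸ hb) cB
          apply hc
          rw [covs, Bool.or_eq_true]
          exact Or.inl (covd_iff.mpr ⟨a, (hA a).mpr ⟨ha, ha'⟩, b, (hB b).mpr ⟨hb, hb'⟩,
            by omega⟩)
        · exact h
      obtain ⟨a, ha, b, hb, hab⟩ := hcv
      match st, hst, hc, g3, keep2, cvs with
      | none, hst, hc, g3, keep2, cvs =>
        have hd : d = q := by
          simp only [Inv2] at hst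
          omega
        subst hd
        refine ih (d + 1) A B _ (by omega) (by omega) nA nB (keepA cA) (keepB cB) ?_ g3
        refine ⟨rfl, by omega, by simp, by simp, fun x => ?_, fun x => ?_⟩
        · rw [List.mem_singleton]
          constructor
          · rintro rfl; exact ⟨T.c0, by omega⟩
          · rintro ⟨_, h⟩; omega
        · rw [List.mem_singleton]
          constructor
          · rintro rfl; exact ⟨T.d0, by omega⟩
          · rintro ⟨_, h⟩; omega
      | some (d', C, D), hst, hc, g3, keep2, cvs =>
        obtain ⟨rfl, hd, nC, nD, hC, hD⟩ := hst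
        obtain ⟨g3, g4⟩ := Bool.and_eq_true_iff.mp g3
        have hor : d' + a = q ∨ d' + b = q := by
          by_contra hne
          push Not at hne
          apply hc
          rw [covs, Bool.or_eq_true]
          refine Or.inr (covd_iff.mpr ⟨a, (hC a).mpr ⟨ha, by omega⟩, b,
            (hD b).mpr ⟨hb, by omega⟩, hab⟩)
        rcases hor with e | e
        · have hqd : q - d' = a := by omega
          have test : (Nat.blt C.length s &&
              D.all fun b => Nat.blt (q + b) N && !(covs A B (some (d', C, D)) (q + b))) =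
              true := by
            rw [Bool.and_eq_true]
            refine ⟨len_lt nC (fun x hx => ((hC x).mp hx).1) ha
              (fun h => by have := ((hC a).mp h).2; omega) sC, ?_⟩
            rw [List.all_eq_true]
            intro b1 hb1
            have hb1' := ((hD b1).mp hb1).1
            rw [Bool.and_eq_true, Nat.blt_eq, Bool.not_eq_true']
            refine ⟨by have := T.lt2 a ha b1 hb1'; omega, ?_⟩
            rw [← Bool.not_eq_true]
            intro h
            rcases cvs _ h with ⟨a', ha', b', hb', h1, h2, e'⟩ | ⟨a', ha', b', hb', h1, h2, e'⟩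
            · exact T.u3 a' ha' b' hb' a ha b1 hb1' (by omega)
            · have := T.u2 a' ha' b' hb' a ha b1 hb1' (by omega)
              omega
          have g3' := g3
          rw [if_pos] at g3'
          · refine ih (q + 1) A B _ (by omega) (by omega) nA nB (keepA cA) (keepB cB) ?_ g3'
            rw [hqd]
            refine ⟨rfl, by omega, List.nodup_cons.mpr
              ⟨fun h => by have := ((hC a).mp h).2; omega, nC⟩, nD, fun x => ?_, fun x => ?_⟩
            · rw [List.mem_cons, hC]
              constructor
              · rintro (rfl | ⟨h1, h2⟩)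
                · exact ⟨ha, by omega⟩
                · exact ⟨h1, by omega⟩
              · rintro ⟨h1, h2⟩
                rcases Nat.lt_or_ge (d' + x) q with h3 | h3
                · exact Or.inr ⟨h1, h3⟩
                · exact Or.inl (by omega)
            · rw [hD]
              constructor
              · rintro ⟨h1, h2⟩; exact ⟨h1, by omega⟩
              · rintro ⟨h1, h2⟩
                refine ⟨h1, ?_⟩
                rcases Nat.lt_or_ge (d' + x) q with h3 | h3
                · exact h3
                · have := T.u2 a ha 0 T.d0 0 T.c0 x h1 (by omega)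
                  omega
          · exact test
        · have hqd : q - d' = b := by omega
          have test : (Nat.blt D.length t &&
              C.all fun a => Nat.blt (q + a) N && !(covs A B (some (d', C, D)) (q + a))) =
              true := by
            rw [Bool.and_eq_true]
            refine ⟨len_lt nD (fun x hx => ((hD x).mp hx).1) hb
              (fun h => by have := ((hD b).mp h).2; omega) sD, ?_⟩
            rw [List.all_eq_true]
            intro a1 ha1
            have ha1' := ((hC a1).mp ha1).1
            rw [Bool.and_eq_true, Nat.blt_eq, Bool.not_eq_true']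
            refine ⟨by have := T.lt2 a1 ha1' b hb; omega, ?_⟩
            rw [← Bool.not_eq_true]
            intro h
            rcases cvs _ h with ⟨a', ha', b', hb', h1, h2, e'⟩ | ⟨a', ha', b', hb', h1, h2, e'⟩
            · exact T.u3 a' ha' b' hb' a1 ha1' b hb (by omega)
            · have := T.u2 a' ha' b' hb' a1 ha1' b hb (by omega)
              omega
          have g4' := g4
          rw [if_pos] at g4'
          · refine ih (q + 1) A B _ (by omega) (by omega) nA nB (keepA cA) (keepB cB) ?_ g4'
            rw [hqd]
            refine ⟨rfl, by omega, nC, List.nodup_cons.mpr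
              ⟨fun h => by have := ((hD b).mp h).2; omega, nD⟩, fun x => ?_, fun x => ?_⟩
            · rw [hC]
              constructor
              · rintro ⟨h1, h2⟩; exact ⟨h1, by omega⟩
              · rintro ⟨h1, h2⟩
                refine ⟨h1, ?_⟩
                rcases Nat.lt_or_ge (d' + x) q with h3 | h3
                · exact h3
                · have := T.u2 x h1 0 T.d0 0 T.c0 b hb (by omega)
                  omega
            · rw [List.mem_cons, hD]
              constructor
              · rintro (rfl | ⟨h1, h2⟩)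
                · exact ⟨hb, by omega⟩
                · exact ⟨h1, by omega⟩
              · rintro ⟨h1, h2⟩
                rcases Nat.lt_or_ge (d' + x) q with h3 | h3
                · exact Or.inr ⟨h1, h3⟩
                · exact Or.inl (by omega)
          · exact test

end Pool.Agent.Helper93.Seq
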